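import Mathlib

/-!
# Absolutely strongly exposing operators and the Bishop-Phelps-Bollobás property for them
-/

set_option autoImplicit false
open Filter Topology

namespace Q99.UD

universe v

/-- `T` is absolutely strongly exposing: for some point `x₀` of the unit sphere, every sequence in the unit ball
along which `‖T x‖` tends to `‖T‖` has a subsequence converging in norm to a multiple `c • x₀`, `‖c‖ = 1`. -/
def ASE {𝕜 : Type} [RCLike 𝕜] {X : Type} [NormedAddCommGroup X] [NormedSpace 𝕜 X] {Z : Type v}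
    [NormedAddCommGroup Z] [NormedSpace 𝕜 Z] (T : X →L[𝕜] Z) : Prop :=
  ∃ x₀ : X, ‖x₀‖ = 1 ∧ ∀ x : ℕ → X, (∀ n, ‖x n‖ ≤ 1) → Tendsto (fun n => ‖T (x n)‖) atTop (𝓝 ‖T‖) →
    ∃ σ : ℕ → ℕ, StrictMono σ ∧ ∃ c : 𝕜, ‖c‖ = 1 ∧ Tendsto (fun n => x (σ n)) atTop (𝓝 (c • x₀))

/-- The pair `(X, Z)` has the Bishop-Phelps-Bollobás property for absolutely strongly exposing operators. -/
def BPBpASE (𝕜 : Type) [RCLike 𝕜] (X : Type) [NormedAddCommGroup X] [NormedSpace 𝕜 X] (Z : Type v)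
    [NormedAddCommGroup Z] [NormedSpace 𝕜 Z] : Prop :=
  ∀ ε : ℝ, 0 < ε → ∃ η : ℝ, 0 < η ∧ η < ε ∧ ∀ (T : X →L[𝕜] Z) (x : X), ‖T‖ = 1 → ‖x‖ = 1 → 1 - η < ‖T x‖ →
    ∃ (S : X →L[𝕜] Z) (x₀ : X), ASE S ∧ ‖x₀‖ = 1 ∧ ‖S‖ = 1 ∧ ‖S x₀‖ = 1 ∧ ‖S - T‖ < ε ∧ ‖x - x₀‖ < ε

/-- `X` is a universal domain: `(X, Z)` has the property for every Banach space `Z`. -/
def UniversalDomain (𝕜 : Type) [RCLike 𝕜] (X : Type) [NormedAddCommGroup X] [NormedSpace 𝕜 X] : Prop :=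
  ∀ (Z : Type v) [NormedAddCommGroup Z] [NormedSpace 𝕜 Z] [CompleteSpace Z], BPBpASE 𝕜 X Z

/-- `X` is uniformly convex. -/
def UniformlyConvex (X : Type) [NormedAddCommGroup X] : Prop :=
  ∀ ε : ℝ, 0 < ε → ∃ δ : ℝ, 0 < δ ∧ δ < 1 ∧ ∀ x₁ x₂ : X, ‖x₁‖ = 1 → ‖x₂‖ = 1 → 1 - δ < ‖x₁ + x₂‖ / 2 →
    ‖x₁ - x₂‖ < ε

end Q99.UD
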