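import Pool.Agent.Q99.UD.Rot

/-!
# The main estimate
-/

set_option autoImplicit false
set_option linter.unusedSectionVars false
open Filter Topology Finset

namespace Q99.UD

variable {𝕜 : Type} [RCLike 𝕜]

theorem est {K K₀ : ℕ} {C S δ : ℝ} (h : Ang K C S) (hδ : 0 < δ) (hδ1 : δ ≤ 1)
    (hK₀ : (1 / 2 : ℝ) ^ K₀ ≤ δ / 4) (hc1 : 6 * ee K ≤ δ / 100) (hc2 : 6 * ee K ≤ δ * ee K₀ ^ 2)
    {y : X3 𝕜} (hy : ‖y‖ = 1)
    (hmax : 1 + δ - 9 * ee K ^ 2 * ww K * (1 / 2) ^ K ≤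
      ‖(show X3 𝕜 from rot (𝕜 := 𝕜) C S y)‖ + δ * ‖(C : 𝕜) * y.2.1 + (S : 𝕜) * y.2.2‖) :
    δ * (1 - ‖(C : 𝕜) * y.2.1 + (S : 𝕜) * y.2.2‖) ≤ 6 * ee K ∧
    δ / 4 * ‖((-S : ℝ) : 𝕜) * y.2.1 + (C : 𝕜) * y.2.2‖ ^ 2 + 1 / 2 * ww K * ee K ^ 2 * ‖y.1 - cc 𝕜 K * y.2.1‖ ^ 2 ≤
      ee K ^ 2 * ww K * (9 * (1 / 2) ^ K + 49 / 2 * ww K / δ) := by
  have he := ee_pos K
  have he1 := ee_le K
  have hw := ww_pos K
  have hw1 : ww K ≤ 1 / 16 := by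
    refine (ww_le K).trans ?_
    have : (1 / 2 : ℝ) ^ (K + 1) ≤ (1 / 2) ^ 1 := pow_le_pow_of_le_one (by norm_num) (by norm_num) (by omega)
    rw [pow_one] at this
    linarith
  have hpK : (1 / 2 : ℝ) ^ K ≤ 1 := pow_le_one₀ (by norm_num) (by norm_num)
  have hpK0 : 0 < (1 / 2 : ℝ) ^ K := by positivity
  have hCpos := h.Cpos
  have hSpos := h.Spos
  obtain ⟨P, hP⟩ : ∃ P, P = ‖(C : 𝕜) * y.2.1 + (S : 𝕜) * y.2.2‖ := ⟨_, rfl⟩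
  obtain ⟨u, hu⟩ : ∃ u, u = ‖((-S : ℝ) : 𝕜) * y.2.1 + (C : 𝕜) * y.2.2‖ := ⟨_, rfl⟩
  obtain ⟨q, hq⟩ : ∃ q, q = ‖y.1 - cc 𝕜 K * y.2.1‖ := ⟨_, rfl⟩
  obtain ⟨x, hx⟩ : ∃ x, x = ‖(show X3 𝕜 from rot (𝕜 := 𝕜) C S y)‖ := ⟨_, rfl⟩
  rw [← hP, ← hu, ← hq]
  rw [← hP, ← hx] at hmax
  have hP0 : 0 ≤ P := by rw [hP]; exact norm_nonneg _
  have hu0 : 0 ≤ u := by rw [hu]; exact norm_nonneg _
  have hq0 : 0 ≤ q := by rw [hq]; exact norm_nonneg _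
  have hx0 : 0 ≤ x := by rw [hx]; exact norm_nonneg _
  have hvv : P ^ 2 + u ^ 2 = vv (𝕜 := 𝕜) y := by
    rw [← vv_rot h.sq, hP, hu]
    rfl
  have hvv1 := vv_le_one hy
  have hNy : NN (𝕜 := 𝕜) y = 1 := by rw [← norm_sq_eq, hy, one_pow]
  have hP1 : P ≤ 1 := by nlinarith
  -- the crude bound
  have hxle : x ≤ 1 + 5 * ee K := by
    have h1 := h.move y
    rw [hy, mul_one] at h1
    have h2 := norm_sub_norm_le (show X3 𝕜 from rot (𝕜 := 𝕜) C S y) y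
    rw [← hx, hy] at h2
    linarith
  have hm : 9 * ee K ^ 2 * ww K * (1 / 2) ^ K ≤ ee K := by
    have h1 : 9 * ee K ^ 2 * ww K * (1 / 2) ^ K ≤ 9 * ee K ^ 2 * ww K * 1 :=
      mul_le_mul_of_nonneg_left hpK (by positivity)
    have h2 : 9 * ee K ^ 2 * ww K ≤ 9 * ee K ^ 2 * (1 / 16) := mul_le_mul_of_nonneg_left hw1 (by positivity)
    nlinarith
  have hstep1 : δ * (1 - P) ≤ 6 * ee K := by linarith
  refine ⟨hstep1, ?_⟩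
  have hP99 : 1 - P ≤ 1 / 100 := by
    by_contra hc
    push Not at hc
    nlinarith
  have hu2 : u ^ 2 ≤ 2 * (1 - P) := by nlinarith
  -- the first coordinate
  have hs2 : ‖y.1‖ ^ 2 ≤ 4 - 3 * vv (𝕜 := 𝕜) y := by
    have h1 := s_le_NN (𝕜 := 𝕜) y
    rw [hNy] at h1
    linarith
  have hPsq : 49 / 50 ≤ P ^ 2 := by nlinarith
  have hs3 : ‖y.1‖ ^ 2 ≤ 53 / 50 := by nlinarith [sq_nonneg u]
  -- the hinge functions at the rotated point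
  have hff' : ∀ k, ff k (rot (𝕜 := 𝕜) C S y) ≤ u ^ 2 - 2 * ee k ^ 2 := by
    intro k
    have e1 : ff k (rot (𝕜 := 𝕜) C S y) = u ^ 2 - 9 * ee k ^ 2 * P ^ 2 +
        ee k ^ 2 * ‖y.1 - cc 𝕜 k * ((C : 𝕜) * y.2.1 + (S : 𝕜) * y.2.2)‖ ^ 2 := by
      rw [hP, hu]
      rfl
    rw [e1]
    have h1 : ‖y.1 - cc 𝕜 k * ((C : 𝕜) * y.2.1 + (S : 𝕜) * y.2.2)‖ ≤ ‖y.1‖ + P := by
      refine (norm_sub_le _ _).trans ?_
      rw [norm_mul, ← hP]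
      have := mul_le_mul_of_nonneg_right (cc_le (𝕜 := 𝕜) k) hP0
      linarith
    have h2 : ‖y.1 - cc 𝕜 k * ((C : 𝕜) * y.2.1 + (S : 𝕜) * y.2.2)‖ ^ 2 ≤ (‖y.1‖ + P) ^ 2 :=
      pow_le_pow_left₀ (norm_nonneg _) h1 2
    have h3 : (‖y.1‖ + P) ^ 2 ≤ 9 * P ^ 2 - 2 := by nlinarith [sq_nonneg (‖y.1‖ - P)]
    have h4 : ee k ^ 2 * ‖y.1 - cc 𝕜 k * ((C : 𝕜) * y.2.1 + (S : 𝕜) * y.2.2)‖ ^ 2 ≤ ee k ^ 2 * (9 * P ^ 2 - 2) :=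
      mul_le_mul_of_nonneg_left (h2.trans h3) (by positivity)
    linarith
  obtain ⟨Q, hQ⟩ : ∃ Q, Q = ∑' k, ww k * max (ff k (rot (𝕜 := 𝕜) C S y)) 0 := ⟨_, rfl⟩
  have hQle : Q ≤ δ / 4 * u ^ 2 := by
    have hmaj : ∀ k, ww k * max (ff k (rot (𝕜 := 𝕜) C S y)) 0 ≤ u ^ 2 * (1 / 2) ^ K₀ * (1 / 2) ^ (k + 1) := by
      intro k
      rcases Nat.lt_or_ge k K₀ with hk | hk
      · have h1 : ff k (rot (𝕜 := 𝕜) C S y) ≤ 0 := by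
          refine (hff' k).trans ?_
          have h2 : ee K₀ ^ 2 ≤ ee k ^ 2 := pow_le_pow_left₀ (ee_pos K₀).le (ee_anti hk.le) 2
          have h3 : δ * (1 - P) ≤ δ * ee K₀ ^ 2 := hstep1.trans hc2
          have h4 : 1 - P ≤ ee K₀ ^ 2 := le_of_mul_le_mul_left h3 hδ
          linarith
        rw [max_eq_right h1, mul_zero]
        positivity
      · have h1 : max (ff k (rot (𝕜 := 𝕜) C S y)) 0 ≤ u ^ 2 := by
          apply max_le _ (sq_nonneg _)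
          have := hff' k
          have := sq_nonneg (ee k)
          linarith
        calc ww k * max (ff k (rot (𝕜 := 𝕜) C S y)) 0 ≤ ((1 / 2) ^ K₀ * (1 / 2) ^ (k + 1)) * u ^ 2 :=
              mul_le_mul (ww_le' hk) h1 (le_max_right _ _) (by positivity)
          _ = u ^ 2 * (1 / 2) ^ K₀ * (1 / 2) ^ (k + 1) := by ring
    have h1 := geo_sum.mul_left (u ^ 2 * (1 / 2) ^ K₀)
    have h2 := (summ (rot (𝕜 := 𝕜) C S y)).tsum_le_tsum hmaj h1.summable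
    rw [h1.tsum_eq, mul_one, ← hQ] at h2
    have h3 := mul_le_mul_of_nonneg_left hK₀ (sq_nonneg u)
    linarith
  -- the lower bound at the point
  obtain ⟨D, hD⟩ : ∃ D, D = ∑' k, ww k * max (ff (𝕜 := 𝕜) k y) 0 := ⟨_, rfl⟩
  have hDge : ww K * (ee K ^ 2 * q ^ 2 - 7 * ee K * u) ≤ D := by
    have h1 : ww K * max (ff (𝕜 := 𝕜) K y) 0 ≤ D := by
      rw [hD]
      exact (summ (𝕜 := 𝕜) y).le_tsum K (fun k _ => mul_nonneg (ww_pos k).le (le_max_right _ _))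
    refine le_trans (mul_le_mul_of_nonneg_left ?_ hw.le) h1
    refine le_trans ?_ (le_max_left _ _)
    have e1 : ff (𝕜 := 𝕜) K y = ‖y.2.2‖ ^ 2 - 9 * ee K ^ 2 * ‖y.2.1‖ ^ 2 + ee K ^ 2 * q ^ 2 := by
      rw [hq]
      rfl
    rw [e1]
    have ha1 : ‖y.2.1‖ ≤ 1 := by
      have : ‖y.2.1‖ ^ 2 + ‖y.2.2‖ ^ 2 ≤ 1 := hvv1
      nlinarith [sq_nonneg ‖y.2.2‖, norm_nonneg y.2.1]
    have h2 : S * ‖y.2.1‖ ≤ C * ‖y.2.2‖ + u := by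
      have e2 : (S : 𝕜) * y.2.1 = (C : 𝕜) * y.2.2 - (((-S : ℝ) : 𝕜) * y.2.1 + (C : 𝕜) * y.2.2) := by
        rw [RCLike.ofReal_neg]
        ring
      have n1 : ‖(S : 𝕜) * y.2.1‖ = S * ‖y.2.1‖ := by rw [norm_mul, RCLike.norm_ofReal, abs_of_pos hSpos]
      have n2 : ‖(C : 𝕜) * y.2.2‖ = C * ‖y.2.2‖ := by rw [norm_mul, RCLike.norm_ofReal, abs_of_pos hCpos]
      rw [← n1, ← n2, hu, e2]
      refine (norm_sub_le _ _).trans (le_of_eq ?_)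
      rfl
    have h3 : (S * ‖y.2.1‖) ^ 2 - (C * ‖y.2.2‖) ^ 2 ≤ 2 * S * u := by
      have hSa : 0 ≤ S * ‖y.2.1‖ := by positivity
      have hCb : 0 ≤ C * ‖y.2.2‖ := by positivity
      have hSa1 : S * ‖y.2.1‖ ≤ S := by nlinarith
      rcases le_total (S * ‖y.2.1‖) (C * ‖y.2.2‖) with h4 | h4
      · nlinarith [mul_nonneg hSpos.le hu0]
      · nlinarith
    have h5 : C ^ 2 * (9 * ee K ^ 2 * ‖y.2.1‖ ^ 2 - ‖y.2.2‖ ^ 2) ≤ 6 * ee K * u := by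
      have e3 : (S * ‖y.2.1‖) ^ 2 - (C * ‖y.2.2‖) ^ 2 = C ^ 2 * (9 * ee K ^ 2 * ‖y.2.1‖ ^ 2 - ‖y.2.2‖ ^ 2) := by
        rw [h.tan]
        ring
      rw [← e3]
      refine h3.trans ?_
      have := mul_le_mul_of_nonneg_right h.Sle hu0
      linarith
    have h6 : 9 * ee K ^ 2 * ‖y.2.1‖ ^ 2 - ‖y.2.2‖ ^ 2 ≤ 7 * ee K * u := by
      have hC2 := h.Cge
      have heu : 0 ≤ ee K * u := by positivity
      by_contra hc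
      push Not at hc
      have h7 : 0 ≤ 9 * ee K ^ 2 * ‖y.2.1‖ ^ 2 - ‖y.2.2‖ ^ 2 := by linarith
      have h8 := mul_le_mul_of_nonneg_right hC2 h7
      linarith
    linarith
  -- the two norms
  have hvD : vv (𝕜 := 𝕜) y + 1 / 4 * max (‖y.1‖ ^ 2 - vv (𝕜 := 𝕜) y) 0 + D = 1 := by
    rw [hD]
    exact hNy
  have hx2 : x ^ 2 = 1 - D + Q := by
    rw [hx, norm_sq_eq]
    have e1 : NN (𝕜 := 𝕜) (rot (𝕜 := 𝕜) C S y) = vv (rot (𝕜 := 𝕜) C S y) +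
      1 / 4 * max (‖y.1‖ ^ 2 - vv (rot (𝕜 := 𝕜) C S y)) 0 + Q := by
      rw [hQ]
      rfl
    rw [vv_rot h.sq] at e1
    have e2 : NN (𝕜 := 𝕜) (show X3 𝕜 from rot (𝕜 := 𝕜) C S y) = NN (𝕜 := 𝕜) (rot (𝕜 := 𝕜) C S y) := rfl
    rw [e2, e1]
    linarith
  have hxle2 : x ≤ 1 + (Q - D) / 2 := by nlinarith [sq_nonneg (x - 1)]
  have hPle2 : P ≤ 1 - (D + u ^ 2) / 2 := by
    have h1 := le_max_right (‖y.1‖ ^ 2 - vv (𝕜 := 𝕜) y) 0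
    nlinarith [sq_nonneg (P - 1)]
  have hcomb : 3 * δ / 8 * u ^ 2 + D / 2 ≤ 9 * ee K ^ 2 * ww K * (1 / 2) ^ K := by
    have h1 := mul_le_mul_of_nonneg_left hPle2 hδ.le
    have hD0 : 0 ≤ D := by
      rw [hD]
      exact tsum_nonneg fun k => mul_nonneg (ww_pos k).le (le_max_right _ _)
    have h2 : 0 ≤ δ * D := by positivity
    nlinarith
  have hamgm : 7 / 2 * ww K * ee K * u ≤ δ / 8 * u ^ 2 + 49 / 2 * ww K ^ 2 * ee K ^ 2 / δ := by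
    have h1 : 0 ≤ (δ * u - 14 * ww K * ee K) ^ 2 / (8 * δ) := by positivity
    have h2 : (δ * u - 14 * ww K * ee K) ^ 2 / (8 * δ) =
        δ / 8 * u ^ 2 - 7 / 2 * ww K * ee K * u + 49 / 2 * ww K ^ 2 * ee K ^ 2 / δ := by
      field_simp
      ring
    linarith
  have e9 : ee K ^ 2 * ww K * (9 * (1 / 2) ^ K + 49 / 2 * ww K / δ) =
      9 * ee K ^ 2 * ww K * (1 / 2) ^ K + 49 / 2 * ww K ^ 2 * ee K ^ 2 / δ := by ring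
  rw [e9]
  linarith

end Q99.UD
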