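import Pool.Agent.Q99.UD.Est

/-!
# Localization of the maximum near a point of the flat face
-/

set_option autoImplicit false
set_option linter.unusedSectionVars false
open Filter Topology Finset

namespace Q99.UD

variable {𝕜 : Type} [RCLike 𝕜]

theorem ww_tendsto : Tendsto ww atTop (𝓝 0) := ww_summable.tendsto_atTop_zero

/-- the perturbing operator -/
noncomputable def wmap (C S δ : ℝ) (c : 𝕜) : X3 𝕜 →ₗ[𝕜] X3 𝕜 where
  toFun y := (show X3 𝕜 from rot (𝕜 := 𝕜) C S y) +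
    ((δ : 𝕜) * ((C : 𝕜) * y.2.1 + (S : 𝕜) * y.2.2)) • mk (c * (C : 𝕜)) 1 0
  map_add' y z := by
    have h1 : (show X3 𝕜 from rot (𝕜 := 𝕜) C S (y + z)) =
        (show X3 𝕜 from rot (𝕜 := 𝕜) C S y) + (show X3 𝕜 from rot (𝕜 := 𝕜) C S z) := by
      refine Prod.ext rfl (Prod.ext ?_ ?_)
      · show (C : 𝕜) * (y.2.1 + z.2.1) + (S : 𝕜) * (y.2.2 + z.2.2) =
          ((C : 𝕜) * y.2.1 + (S : 𝕜) * y.2.2) + ((C : 𝕜) * z.2.1 + (S : 𝕜) * z.2.2)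
        ring
      · show ((-S : ℝ) : 𝕜) * (y.2.1 + z.2.1) + (C : 𝕜) * (y.2.2 + z.2.2) =
          (((-S : ℝ) : 𝕜) * y.2.1 + (C : 𝕜) * y.2.2) + (((-S : ℝ) : 𝕜) * z.2.1 + (C : 𝕜) * z.2.2)
        ring
    have h2 : (δ : 𝕜) * ((C : 𝕜) * (y + z).2.1 + (S : 𝕜) * (y + z).2.2) =
        (δ : 𝕜) * ((C : 𝕜) * y.2.1 + (S : 𝕜) * y.2.2) + (δ : 𝕜) * ((C : 𝕜) * z.2.1 + (S : 𝕜) * z.2.2) := by
      show (δ : 𝕜) * ((C : 𝕜) * (y.2.1 + z.2.1) + (S : 𝕜) * (y.2.2 + z.2.2)) = _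
      ring
    rw [h1, h2, add_smul]
    abel
  map_smul' m y := by
    have h1 : (show X3 𝕜 from rot (𝕜 := 𝕜) C S (m • y)) = m • (show X3 𝕜 from rot (𝕜 := 𝕜) C S y) := by
      refine Prod.ext rfl (Prod.ext ?_ ?_)
      · show (C : 𝕜) * (m * y.2.1) + (S : 𝕜) * (m * y.2.2) = m * ((C : 𝕜) * y.2.1 + (S : 𝕜) * y.2.2)
        ring
      · show ((-S : ℝ) : 𝕜) * (m * y.2.1) + (C : 𝕜) * (m * y.2.2) = m * (((-S : ℝ) : 𝕜) * y.2.1 + (C : 𝕜) * y.2.2)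
        ring
    have h2 : (δ : 𝕜) * ((C : 𝕜) * (m • y).2.1 + (S : 𝕜) * (m • y).2.2) =
        m * ((δ : 𝕜) * ((C : 𝕜) * y.2.1 + (S : 𝕜) * y.2.2)) := by
      show (δ : 𝕜) * ((C : 𝕜) * (m * y.2.1) + (S : 𝕜) * (m * y.2.2)) = _
      ring
    rw [h1, h2, mul_smul]
    exact (smul_add _ _ _).symm

theorem wmap_apply (C S δ : ℝ) (c : 𝕜) (y : X3 𝕜) : wmap C S δ c y = (show X3 𝕜 from rot (𝕜 := 𝕜) C S y) +
    ((δ : 𝕜) * ((C : 𝕜) * y.2.1 + (S : 𝕜) * y.2.2)) • mk (c * (C : 𝕜)) 1 0 := rfl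

theorem g_le {K : ℕ} {C S : ℝ} (h : Ang K C S) (y : X3 𝕜) : ‖(C : 𝕜) * y.2.1 + (S : 𝕜) * y.2.2‖ ≤ ‖y‖ := by
  apply le_of_sq_le_sq _ (norm_nonneg _)
  rw [norm_sq_eq]
  refine le_trans ?_ (vv_le_NN (𝕜 := 𝕜) y)
  rw [← vv_rot h.sq]
  show ‖(C : 𝕜) * y.2.1 + (S : 𝕜) * y.2.2‖ ^ 2 ≤ ‖(C : 𝕜) * y.2.1 + (S : 𝕜) * y.2.2‖ ^ 2 +
    ‖((-S : ℝ) : 𝕜) * y.2.1 + (C : 𝕜) * y.2.2‖ ^ 2
  have := sq_nonneg ‖((-S : ℝ) : 𝕜) * y.2.1 + (C : 𝕜) * y.2.2‖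
  linarith

theorem z0_le {K : ℕ} {C S : ℝ} (h : Ang K C S) : ‖cc 𝕜 K * (C : 𝕜)‖ ≤ 1 := by
  rw [norm_mul, RCLike.norm_ofReal, abs_of_pos h.Cpos]
  have := mul_le_mul (cc_le (𝕜 := 𝕜) K) h.Cle h.Cpos.le zero_le_one
  linarith

theorem wmap_sub {K : ℕ} {C S δ : ℝ} (h : Ang K C S) (hδ : 0 < δ) (y : X3 𝕜) :
    ‖wmap C S δ (cc 𝕜 K) y - y‖ ≤ (5 * ee K + δ) * ‖y‖ := by
  rw [wmap_apply, add_sub_right_comm]
  refine (norm_add_le _ _).trans ?_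
  rw [norm_smul, norm_mul, RCLike.norm_ofReal, abs_of_pos hδ]
  have h1 : ‖mk (cc 𝕜 K * (C : 𝕜)) 1 0‖ = 1 := by
    rw [norm_flat (by rw [norm_one]; exact z0_le h), norm_one]
  rw [h1, mul_one, add_mul]
  exact add_le_add (h.move y) (mul_le_mul_of_nonneg_left (g_le h y) hδ.le)

/-- the maximality inequality -/
theorem max_ineq {K : ℕ} {C S δ : ℝ} (h : Ang K C S) (hδ : 0 < δ) (hδ1 : δ ≤ 1) (p : Seminorm 𝕜 (X3 𝕜))
    (hp : ∀ y, p y ≤ ‖y‖) (hp1 : ∀ s : 𝕜, ‖s‖ ≤ 1 → p (mk s 1 0) = 1) {y : X3 𝕜}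
    (hmax : ∀ z : X3 𝕜, ‖z‖ = 1 → p (wmap C S δ (cc 𝕜 K) z) ≤ p (wmap C S δ (cc 𝕜 K) y)) :
    1 + δ - 9 * ee K ^ 2 * ww K * (1 / 2) ^ K ≤
      ‖(show X3 𝕜 from rot (𝕜 := 𝕜) C S y)‖ + δ * ‖(C : 𝕜) * y.2.1 + (S : 𝕜) * y.2.2‖ := by
  have hz0 : p (mk (cc 𝕜 K * (C : 𝕜)) 1 0) = 1 := hp1 _ (z0_le h)
  -- upper bound
  have hup : p (wmap C S δ (cc 𝕜 K) y) ≤
      ‖(show X3 𝕜 from rot (𝕜 := 𝕜) C S y)‖ + δ * ‖(C : 𝕜) * y.2.1 + (S : 𝕜) * y.2.2‖ := by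
    rw [wmap_apply]
    refine (map_add_le_add p _ _).trans ?_
    rw [map_smul_eq_mul, hz0, mul_one, norm_mul, RCLike.norm_ofReal, abs_of_pos hδ]
    exact add_le_add_left (hp _) _
  refine le_trans ?_ hup
  -- the distinguished point
  obtain ⟨x, hx⟩ : ∃ x : X3 𝕜, x = mk (cc 𝕜 K * (C : 𝕜)) (C : 𝕜) (S : 𝕜) := ⟨_, rfl⟩
  have hCS : (C : 𝕜) * (C : 𝕜) + (S : 𝕜) * (S : 𝕜) = 1 := by
    rw [← RCLike.ofReal_mul, ← RCLike.ofReal_mul, ← RCLike.ofReal_add]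
    have : C * C + S * S = 1 := by
      have := h.sq
      nlinarith
    rw [this, RCLike.ofReal_one]
  have hWx : wmap C S δ (cc 𝕜 K) x = ((1 + δ : ℝ) : 𝕜) • mk (cc 𝕜 K * (C : 𝕜)) 1 0 := by
    rw [wmap_apply]
    have e1 : (show X3 𝕜 from rot (𝕜 := 𝕜) C S x) = mk (cc 𝕜 K * (C : 𝕜)) 1 0 := by
      rw [hx]
      refine Prod.ext rfl (Prod.ext ?_ ?_)
      · exact hCS
      · show ((-S : ℝ) : 𝕜) * (C : 𝕜) + (C : 𝕜) * (S : 𝕜) = 0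
        rw [RCLike.ofReal_neg]
        ring
    have e2 : (C : 𝕜) * x.2.1 + (S : 𝕜) * x.2.2 = 1 := by
      rw [hx]
      exact hCS
    rw [e1, e2, mul_one, RCLike.ofReal_add, RCLike.ofReal_one, add_smul, one_smul]
  have hxn : ‖x‖ ^ 2 ≤ 1 + 9 * ee K ^ 2 * ww K * (1 / 2) ^ K := by
    rw [norm_sq_eq, hx]
    exact h.NN_point
  have hx1 : 1 ≤ ‖x‖ := by
    have h1 : (1 : ℝ) ≤ ‖x‖ ^ 2 := by
      rw [norm_sq_eq]
      refine le_trans (le_of_eq ?_) (vv_le_NN (𝕜 := 𝕜) x)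
      rw [hx]
      show 1 = ‖(C : 𝕜)‖ ^ 2 + ‖(S : 𝕜)‖ ^ 2
      rw [RCLike.norm_ofReal, RCLike.norm_ofReal, sq_abs, sq_abs, h.sq]
    nlinarith [norm_nonneg x]
  have hxpos : 0 < ‖x‖ := by linarith
  have h1 := hmax (((‖x‖⁻¹ : ℝ) : 𝕜) • x) (by
    rw [norm_smul, RCLike.norm_ofReal, abs_of_pos (by positivity), inv_mul_cancel₀ hxpos.ne'])
  refine le_trans ?_ h1
  rw [map_smul, map_smul_eq_mul, hWx, map_smul_eq_mul, hz0, mul_one, RCLike.norm_ofReal, RCLike.norm_ofReal,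
    abs_of_pos (by positivity), abs_of_pos (by positivity)]
  have h2 : 1 - (‖x‖ ^ 2 - 1) / 2 ≤ ‖x‖⁻¹ := by
    rw [le_inv_comm₀ (by
      have : ‖x‖ ^ 2 ≤ 2 := by
        have h3 := ee_sq_le K
        have h4 : ww K ≤ 1 / 16 := by
          refine (ww_le K).trans ?_
          have : (1 / 2 : ℝ) ^ (K + 1) ≤ (1 / 2) ^ 1 := pow_le_pow_of_le_one (by norm_num) (by norm_num) (by omega)
          rw [pow_one] at this
          linarith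
        have h5 : (1 / 2 : ℝ) ^ K ≤ 1 := pow_le_one₀ (by norm_num) (by norm_num)
        have h6 : 9 * ee K ^ 2 * ww K * (1 / 2) ^ K ≤ 1 := by
          have h7 : 9 * ee K ^ 2 * ww K * (1 / 2) ^ K ≤ 9 * ee K ^ 2 * ww K * 1 :=
            mul_le_mul_of_nonneg_left h5 (by have := ww_pos K; positivity)
          have h8 : 9 * ee K ^ 2 * ww K ≤ 9 * ee K ^ 2 * (1 / 16) := mul_le_mul_of_nonneg_left h4 (by positivity)
          linarith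
        linarith
      linarith) hxpos, ← one_div, le_div_iff₀ (by
      have : ‖x‖ ^ 2 ≤ 2 := by
        have h3 := ee_sq_le K
        have h4 : ww K ≤ 1 / 16 := by
          refine (ww_le K).trans ?_
          have : (1 / 2 : ℝ) ^ (K + 1) ≤ (1 / 2) ^ 1 := pow_le_pow_of_le_one (by norm_num) (by norm_num) (by omega)
          rw [pow_one] at this
          linarith
        have h5 : (1 / 2 : ℝ) ^ K ≤ 1 := pow_le_one₀ (by norm_num) (by norm_num)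
        have h6 : 9 * ee K ^ 2 * ww K * (1 / 2) ^ K ≤ 1 := by
          have h7 : 9 * ee K ^ 2 * ww K * (1 / 2) ^ K ≤ 9 * ee K ^ 2 * ww K * 1 :=
            mul_le_mul_of_nonneg_left h5 (by have := ww_pos K; positivity)
          have h8 : 9 * ee K ^ 2 * ww K ≤ 9 * ee K ^ 2 * (1 / 16) := mul_le_mul_of_nonneg_left h4 (by positivity)
          linarith
        linarith
      linarith)]
    nlinarith [mul_nonneg (sq_nonneg (‖x‖ - 1)) (show 0 ≤ ‖x‖ + 2 by positivity)]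
  have h3 : 1 - 9 * ee K ^ 2 * ww K * (1 / 2) ^ K / 2 ≤ ‖x‖⁻¹ := by linarith
  have h4 := mul_le_mul_of_nonneg_right h3 (show 0 ≤ 1 + δ by linarith)
  have h5 : 0 ≤ 9 * ee K ^ 2 * ww K * (1 / 2) ^ K := by
    have := ww_pos K
    positivity
  nlinarith

/-- the perturbation near the flat face -/
theorem flat_case (p : Seminorm 𝕜 (X3 𝕜)) (hp : ∀ y, p y ≤ ‖y‖) (hp1 : ∀ s : 𝕜, ‖s‖ ≤ 1 → p (mk s 1 0) = 1)
    {s₁ : 𝕜} (hs₁ : ‖s₁‖ < 1) {ε : ℝ} (hε : 0 < ε) :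
    ∃ W : X3 𝕜 →ₗ[𝕜] X3 𝕜, (∀ y, ‖W y - y‖ ≤ ε * ‖y‖) ∧
      ∀ y : X3 𝕜, ‖y‖ = 1 → (∀ z : X3 𝕜, ‖z‖ = 1 → p (W z) ≤ p (W y)) →
        y.2.2 ≠ 0 ∧ ∃ l : 𝕜, ‖l‖ = 1 ∧ ‖y - l • mk s₁ 1 0‖ ≤ ε := by
  obtain ⟨δ, hδ⟩ : ∃ δ, δ = min 1 (ε / 4) := ⟨_, rfl⟩
  have hδ0 : 0 < δ := by rw [hδ]; exact lt_min one_pos (by positivity)
  have hδ1 : δ ≤ 1 := by rw [hδ]; exact min_le_left _ _
  have hδε : δ ≤ ε / 4 := by rw [hδ]; exact min_le_right _ _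
  obtain ⟨t, ht⟩ : ∃ t, t = min 1 (ε / 6) := ⟨_, rfl⟩
  have ht0 : 0 < t := by rw [ht]; exact lt_min one_pos (by positivity)
  have ht1 : t ≤ 1 := by rw [ht]; exact min_le_left _ _
  have htε : t ≤ ε / 6 := by rw [ht]; exact min_le_right _ _
  have hhalf : Tendsto (fun K : ℕ => (1 / 2 : ℝ) ^ K) atTop (𝓝 0) :=
    tendsto_pow_atTop_nhds_zero_of_lt_one (by norm_num) (by norm_num)
  obtain ⟨K₀, hK₀⟩ : ∃ K₀ : ℕ, (1 / 2 : ℝ) ^ K₀ ≤ δ / 4 :=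
    ((hhalf.eventually (gt_mem_nhds (show (0 : ℝ) < δ / 4 by positivity))).mono fun K hK => le_of_lt hK).exists
  have hee : ∀ c : ℝ, 0 < c → ∀ᶠ K in atTop, ee K ≤ c := fun c hc =>
    (ee_tendsto.eventually (gt_mem_nhds hc)).mono fun K hK => le_of_lt hK
  have hww : ∀ c : ℝ, 0 < c → ∀ᶠ K in atTop, ww K ≤ c := fun c hc =>
    (ww_tendsto.eventually (gt_mem_nhds hc)).mono fun K hK => le_of_lt hK
  have hpp : ∀ c : ℝ, 0 < c → ∀ᶠ K : ℕ in atTop, (1 / 2 : ℝ) ^ K ≤ c := fun c hc =>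
    (hhalf.eventually (gt_mem_nhds hc)).mono fun K hK => le_of_lt hK
  have hK0pos := ee_pos K₀
  obtain ⟨K, hcK, E1, E2, E3, E4, E5, E6, E7⟩ := ((cc_frequently (𝕜 := 𝕜) hs₁ ht0).and_eventually
    ((hee (δ / 600) (by positivity)).and ((hee (δ * ee K₀ ^ 2 / 6) (by positivity)).and
    ((hpp (t ^ 2 / 36) (by positivity)).and ((hww (δ * t ^ 2 / 98) (by positivity)).and
    ((hww (δ / 2) (by positivity)).and
    ((hee (t * δ / 24) (by positivity)).and (hee (ε / 10) (by positivity))))))))).exists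
  obtain ⟨C, S, hA⟩ := exists_ang K
  refine ⟨wmap C S δ (cc 𝕜 K), fun y => ?_, fun y hy hmax => ?_⟩
  · refine (wmap_sub hA hδ0 y).trans (mul_le_mul_of_nonneg_right ?_ (norm_nonneg _))
    linarith
  have he := ee_pos K
  have hw := ww_pos K
  obtain ⟨h1, h2⟩ := est hA hδ0 hδ1 hK₀ (by linarith) (by linarith) hy (max_ineq hA hδ0 hδ1 p hp hp1 hmax)
  obtain ⟨P, hP⟩ : ∃ P, P = ‖(C : 𝕜) * y.2.1 + (S : 𝕜) * y.2.2‖ := ⟨_, rfl⟩
  obtain ⟨u, hu⟩ : ∃ u, u = ‖((-S : ℝ) : 𝕜) * y.2.1 + (C : 𝕜) * y.2.2‖ := ⟨_, rfl⟩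
  obtain ⟨q, hq⟩ : ∃ q, q = ‖y.1 - cc 𝕜 K * y.2.1‖ := ⟨_, rfl⟩
  rw [← hP] at h1
  rw [← hu, ← hq] at h2
  have hu0 : 0 ≤ u := by rw [hu]; exact norm_nonneg _
  have hq0 : 0 ≤ q := by rw [hq]; exact norm_nonneg _
  have hbr : 9 * (1 / 2 : ℝ) ^ K + 49 / 2 * ww K / δ ≤ t ^ 2 / 2 := by
    have h3 : 49 / 2 * ww K / δ ≤ t ^ 2 / 4 := by
      rw [div_le_iff₀ hδ0]
      linarith
    linarith
  have h4 : ee K ^ 2 * ww K * (9 * (1 / 2) ^ K + 49 / 2 * ww K / δ) ≤ ee K ^ 2 * ww K * (t ^ 2 / 2) :=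
    mul_le_mul_of_nonneg_left hbr (by positivity)
  have hqt : q ≤ t := by
    apply le_of_sq_le_sq _ ht0.le
    have h5 : 1 / 2 * ww K * ee K ^ 2 * q ^ 2 ≤ ee K ^ 2 * ww K * (t ^ 2 / 2) := by
      have : 0 ≤ δ / 4 * u ^ 2 := by positivity
      linarith
    have h6 : (1 / 2 * ww K * ee K ^ 2) * q ^ 2 ≤ (1 / 2 * ww K * ee K ^ 2) * t ^ 2 := by linarith
    exact le_of_mul_le_mul_left h6 (by positivity)
  have hut : u ≤ t * ee K := by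
    apply le_of_sq_le_sq _ (by positivity)
    have h5 : δ / 4 * u ^ 2 ≤ ee K ^ 2 * ww K * (t ^ 2 / 2) := by
      have : 0 ≤ 1 / 2 * ww K * ee K ^ 2 * q ^ 2 := by positivity
      linarith
    have h6 : ee K ^ 2 * ww K * (t ^ 2 / 2) ≤ ee K ^ 2 * (δ / 2) * (t ^ 2 / 2) := by
      apply mul_le_mul_of_nonneg_right _ (by positivity)
      exact mul_le_mul_of_nonneg_left E5 (by positivity)
    have h7 : δ / 4 * u ^ 2 ≤ δ / 4 * (t * ee K) ^ 2 := by nlinarith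
    exact le_of_mul_le_mul_left h7 (by positivity)
  have hP1 : 1 - P ≤ 1 / 100 := by
    by_contra hc
    push Not at hc
    nlinarith
  have hPle : P ≤ 1 := by
    rw [hP]
    exact (g_le hA y).trans hy.le
  have hCpos := hA.Cpos
  have hSpos := hA.Spos
  have hC9 : 9 / 10 ≤ C := by nlinarith [hA.Cge, hA.Cle]
  have hSge : 27 / 10 * ee K ≤ S := by
    rw [hA.tan]
    nlinarith
  -- the coordinates
  have eb : y.2.2 = (S : 𝕜) * ((C : 𝕜) * y.2.1 + (S : 𝕜) * y.2.2) + (C : 𝕜) * (((-S : ℝ) : 𝕜) * y.2.1 + (C : 𝕜) * y.2.2) := by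
    have hCS : (C : 𝕜) * (C : 𝕜) + (S : 𝕜) * (S : 𝕜) = 1 := by
      rw [← RCLike.ofReal_mul, ← RCLike.ofReal_mul, ← RCLike.ofReal_add]
      have : C * C + S * S = 1 := by
        have := hA.sq
        nlinarith
      rw [this, RCLike.ofReal_one]
    rw [RCLike.ofReal_neg]
    linear_combination (-y.2.2) * hCS
  have ea : y.2.1 = (C : 𝕜) * ((C : 𝕜) * y.2.1 + (S : 𝕜) * y.2.2) - (S : 𝕜) * (((-S : ℝ) : 𝕜) * y.2.1 + (C : 𝕜) * y.2.2) := by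
    have hCS : (C : 𝕜) * (C : 𝕜) + (S : 𝕜) * (S : 𝕜) = 1 := by
      rw [← RCLike.ofReal_mul, ← RCLike.ofReal_mul, ← RCLike.ofReal_add]
      have : C * C + S * S = 1 := by
        have := hA.sq
        nlinarith
      rw [this, RCLike.ofReal_one]
    rw [RCLike.ofReal_neg]
    linear_combination (-y.2.1) * hCS
  obtain ⟨a', ha'⟩ : ∃ a' : 𝕜, a' = (C : 𝕜) * y.2.1 + (S : 𝕜) * y.2.2 := ⟨_, rfl⟩
  obtain ⟨b', hb'⟩ : ∃ b' : 𝕜, b' = ((-S : ℝ) : 𝕜) * y.2.1 + (C : 𝕜) * y.2.2 := ⟨_, rfl⟩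
  rw [← ha', ← hb'] at eb ea
  rw [← ha'] at hP
  rw [← hb'] at hu
  have nS : ‖(S : 𝕜)‖ = S := by rw [RCLike.norm_ofReal, abs_of_pos hSpos]
  have nC : ‖(C : 𝕜)‖ = C := by rw [RCLike.norm_ofReal, abs_of_pos hCpos]
  have hCu : C * u ≤ t * ee K := by
    have := mul_le_mul_of_nonneg_right hA.Cle hu0
    linarith
  have hte : t * ee K ≤ ee K := by
    have := mul_le_mul_of_nonneg_right ht1 he.le
    linarith
  refine ⟨?_, ?_⟩
  · intro hb0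
    have h5 : S * P ≤ C * u := by
      have e1 : (S : 𝕜) * a' = -((C : 𝕜) * b') := by
        rw [hb0] at eb
        linear_combination -eb
      have e2 : ‖(S : 𝕜) * a'‖ = ‖(C : 𝕜) * b'‖ := by rw [e1, norm_neg]
      rw [norm_mul, norm_mul, nS, nC, ← hP, ← hu] at e2
      exact e2.le
    have h6 : 27 / 10 * ee K * (99 / 100) ≤ S * P :=
      mul_le_mul hSge (by linarith) (by norm_num) hSpos.le
    nlinarith
  · have hPpos : 0 < P := by linarith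
    refine ⟨a' / (P : 𝕜), ?_, ?_⟩
    · rw [norm_div, RCLike.norm_ofReal, abs_of_pos hPpos, ← hP, div_self hPpos.ne']
    · have hPne : (P : 𝕜) ≠ 0 := by
        rw [Ne, RCLike.ofReal_eq_zero]
        exact hPpos.ne'
      have hl : ‖a' - a' / (P : 𝕜)‖ = 1 - P := by
        have e1 : a' - a' / (P : 𝕜) = (a' / (P : 𝕜)) * (((P - 1 : ℝ)) : 𝕜) := by
          rw [RCLike.ofReal_sub, RCLike.ofReal_one]
          field_simp
        rw [e1, norm_mul, norm_div, RCLike.norm_ofReal, RCLike.norm_ofReal, abs_of_pos hPpos, ← hP,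
          div_self hPpos.ne', one_mul, abs_sub_comm, abs_of_nonneg (by linarith)]
      have hla : ‖y.2.1 - a'‖ ≤ 4 * ee K := by
        have e1 : y.2.1 - a' = ((C - 1 : ℝ) : 𝕜) * a' - (S : 𝕜) * b' := by
          rw [RCLike.ofReal_sub, RCLike.ofReal_one]
          linear_combination ea
        rw [e1]
        refine (norm_sub_le _ _).trans ?_
        rw [norm_mul, norm_mul, nS, RCLike.norm_ofReal, abs_sub_comm, abs_of_nonneg (by linarith [hA.Cle]), ← hP, ← hu]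
        have hS3 := hA.Sle
        have hS1 := hA.Sle1
        have h5 : 1 - C ≤ S ^ 2 := by nlinarith [hA.sq, hA.Cle]
        have h6 : (1 - C) * P ≤ S ^ 2 * 1 := mul_le_mul h5 hPle (by linarith) (by positivity)
        have h7 : S * u ≤ S * (ee K) := mul_le_mul_of_nonneg_left (hut.trans hte) hSpos.le
        nlinarith
      have hlam : ‖y.2.1 - a' / (P : 𝕜)‖ ≤ 4 * ee K + (1 - P) := by
        have e1 : y.2.1 - a' / (P : 𝕜) = (y.2.1 - a') + (a' - a' / (P : 𝕜)) := by ring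
        rw [e1]
        refine (norm_add_le _ _).trans ?_
        rw [hl]
        linarith
      have hlb : ‖y.2.2‖ ≤ 4 * ee K := by
        rw [eb]
        refine (norm_add_le _ _).trans ?_
        rw [norm_mul, norm_mul, nS, nC, ← hP, ← hu]
        have hS3 := hA.Sle
        have h5 : S * P ≤ S * 1 := mul_le_mul_of_nonneg_left hPle hSpos.le
        linarith
      have hln : ‖a' / (P : 𝕜)‖ = 1 := by
        rw [norm_div, RCLike.norm_ofReal, abs_of_pos hPpos, ← hP, div_self hPpos.ne']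
      have hls : ‖y.1 - a' / (P : 𝕜) * s₁‖ ≤ t + (4 * ee K + (1 - P)) + t := by
        have e1 : y.1 - a' / (P : 𝕜) * s₁ = (y.1 - cc 𝕜 K * y.2.1) + cc 𝕜 K * (y.2.1 - a' / (P : 𝕜)) +
            (cc 𝕜 K - s₁) * (a' / (P : 𝕜)) := by ring
        rw [e1]
        refine (norm_add_le _ _).trans (add_le_add ((norm_add_le _ _).trans (add_le_add (by rw [← hq]; exact hqt) ?_)) ?_)
        · rw [norm_mul]
          calc ‖cc 𝕜 K‖ * ‖y.2.1 - a' / (P : 𝕜)‖ ≤ 1 * (4 * ee K + (1 - P)) :=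
                mul_le_mul (cc_le K) hlam (norm_nonneg _) zero_le_one
            _ = _ := one_mul _
        · rw [norm_mul, hln, mul_one]
          exact hcK.le
      have h1P : 1 - P ≤ t / 4 := by
        have h5 : δ * (1 - P) ≤ δ * (t / 4) := by linarith
        exact le_of_mul_le_mul_left h5 hδ0
      have hee2 : ee K ≤ t / 24 := by
        have : t * δ ≤ t * 1 := mul_le_mul_of_nonneg_left hδ1 ht0.le
        linarith
      refine (norm_le_coords _).trans ?_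
      have e0 : (y - (a' / (P : 𝕜)) • mk s₁ 1 0 : X3 𝕜) = mk (y.1 - a' / (P : 𝕜) * s₁) (y.2.1 - a' / (P : 𝕜)) y.2.2 := by
        refine Prod.ext rfl (Prod.ext ?_ ?_)
        · show y.2.1 - a' / (P : 𝕜) * 1 = y.2.1 - a' / (P : 𝕜)
          rw [mul_one]
        · show y.2.2 - a' / (P : 𝕜) * 0 = y.2.2
          rw [mul_zero, sub_zero]
      rw [e0]
      show 2 * (‖y.1 - a' / (P : 𝕜) * s₁‖ + ‖y.2.1 - a' / (P : 𝕜)‖ + ‖y.2.2‖) ≤ ε
      linarith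

end Q99.UD
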