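import Pool.Agent.Q99.UD.Local
import Pool.Agent.Q99.UD.Defs

/-!
# The space is a universal domain
-/

set_option autoImplicit false
set_option linter.unusedSectionVars false
open Filter Topology

namespace Q99.UD

universe v

variable {𝕜 : Type} [RCLike 𝕜]

theorem Exposed.smul {y : X3 𝕜} (h : Exposed y) {c : 𝕜} (hc : ‖c‖ = 1) : Exposed (c • y) := by
  obtain ⟨g, hg, hgy, hg2⟩ := h
  have hc0 : c ≠ 0 := by
    intro h0
    rw [h0, norm_zero] at hc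
    exact zero_ne_one hc
  refine ⟨c⁻¹ • g, ?_, ?_, fun z hz hgz => ?_⟩
  · rw [norm_smul, norm_inv, hc, inv_one, one_mul]
    exact hg
  · show c⁻¹ * g (c • y) = 1
    rw [map_smul, smul_eq_mul, hgy, mul_one, inv_mul_cancel₀ hc0]
  · have h1 : ‖g z‖ = 1 := by
      have h2 : ‖c⁻¹ * g z‖ = 1 := hgz
      rw [norm_mul, norm_inv, hc, inv_one, one_mul] at h2
      exact h2
    obtain ⟨d, hd, hzd⟩ := hg2 z hz h1
    refine ⟨d * c⁻¹, by rw [norm_mul, norm_inv, hc, inv_one, mul_one, hd], ?_⟩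
    rw [hzd, smul_smul, mul_assoc, inv_mul_cancel₀ hc0, mul_one]

/-- the localization of the maximum -/
theorem localize (p : Seminorm 𝕜 (X3 𝕜)) (hp : ∀ y, p y ≤ ‖y‖) {x : X3 𝕜} (hx : ‖x‖ = 1) (hpx : p x = 1)
    {ε : ℝ} (hε : 0 < ε) : ∃ W : X3 𝕜 →ₗ[𝕜] X3 𝕜, (∀ y, ‖W y - y‖ ≤ ε * ‖y‖) ∧
      ∀ y : X3 𝕜, ‖y‖ = 1 → (∀ z : X3 𝕜, ‖z‖ = 1 → p (W z) ≤ p (W y)) →
        Exposed y ∧ ∃ l : 𝕜, ‖l‖ = 1 ∧ ‖y - l • x‖ ≤ ε := by
  by_cases hflat : x.2.2 = 0 ∧ ‖x.1‖ < ‖x.2.1‖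
  · obtain ⟨hb, hsa⟩ := hflat
    have hxe : x = mk x.1 x.2.1 0 := Prod.ext rfl (Prod.ext rfl hb)
    have ha1 : ‖x.2.1‖ = 1 := by
      have h1 := norm_flat (𝕜 := 𝕜) hsa.le
      rw [← hxe, hx] at h1
      exact h1.symm
    have ha0 : x.2.1 ≠ 0 := by
      intro h0
      rw [h0, norm_zero] at ha1
      exact zero_ne_one ha1
    have hs1 : ‖x.1 / x.2.1‖ < 1 := by
      rw [norm_div, ha1, div_one, ← ha1]
      exact hsa
    have hx' : mk (x.1 / x.2.1) 1 0 = (x.2.1)⁻¹ • x := by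
      refine Prod.ext ?_ (Prod.ext ?_ ?_)
      · show x.1 / x.2.1 = (x.2.1)⁻¹ * x.1
        rw [div_eq_inv_mul]
      · show (1 : 𝕜) = (x.2.1)⁻¹ * x.2.1
        rw [inv_mul_cancel₀ ha0]
      · show (0 : 𝕜) = (x.2.1)⁻¹ * x.2.2
        rw [hb, mul_zero]
    have hpx' : p (mk (x.1 / x.2.1) 1 0) = 1 := by
      rw [hx', map_smul_eq_mul, norm_inv, ha1, inv_one, one_mul, hpx]
    have hple : ∀ s : 𝕜, ‖s‖ ≤ 1 → p (mk s 1 0) ≤ 1 := fun s hs => by
      refine (hp _).trans ?_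
      rw [norm_flat (by rw [norm_one]; exact hs), norm_one]
    have hp1 : ∀ s : 𝕜, ‖s‖ ≤ 1 → p (mk s 1 0) = 1 := by
      intro s hs
      obtain ⟨t, ht⟩ : ∃ t : ℝ, t = (1 - ‖x.1 / x.2.1‖) / 2 := ⟨_, rfl⟩
      have ht0 : 0 < t := by rw [ht]; linarith
      have ht1 : t < 1 := by
        rw [ht]
        have := norm_nonneg (x.1 / x.2.1)
        linarith
      obtain ⟨s', hs'⟩ : ∃ s' : 𝕜, s' = ((1 - t : ℝ) : 𝕜)⁻¹ * (x.1 / x.2.1 - (t : 𝕜) * s) := ⟨_, rfl⟩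
      have h1t : ((1 - t : ℝ) : 𝕜) ≠ 0 := by
        rw [Ne, RCLike.ofReal_eq_zero]
        linarith
      have hs'1 : ‖s'‖ ≤ 1 := by
        rw [hs', norm_mul, norm_inv, RCLike.norm_ofReal, abs_of_pos (by linarith), inv_mul_le_iff₀ (by linarith), mul_one]
        refine (norm_sub_le _ _).trans ?_
        rw [norm_mul, RCLike.norm_ofReal, abs_of_pos ht0]
        have h2 : t * ‖s‖ ≤ t * 1 := mul_le_mul_of_nonneg_left hs ht0.le
        rw [ht] at h2 ⊢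
        linarith
      have hdec : mk (x.1 / x.2.1) 1 0 = (t : 𝕜) • mk s 1 0 + ((1 - t : ℝ) : 𝕜) • mk s' 1 0 := by
        refine Prod.ext ?_ (Prod.ext ?_ ?_)
        · show x.1 / x.2.1 = (t : 𝕜) * s + ((1 - t : ℝ) : 𝕜) * s'
          rw [hs', ← mul_assoc, mul_inv_cancel₀ h1t, one_mul]
          ring
        · show (1 : 𝕜) = (t : 𝕜) * 1 + ((1 - t : ℝ) : 𝕜) * 1
          rw [RCLike.ofReal_sub, RCLike.ofReal_one]
          ring
        · show (0 : 𝕜) = (t : 𝕜) * 0 + ((1 - t : ℝ) : 𝕜) * 0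
          ring
      have h3 : p (mk (x.1 / x.2.1) 1 0) ≤ t * p (mk s 1 0) + (1 - t) * p (mk s' 1 0) := by
        rw [hdec]
        refine (map_add_le_add p _ _).trans ?_
        rw [map_smul_eq_mul, map_smul_eq_mul, RCLike.norm_ofReal, RCLike.norm_ofReal, abs_of_pos ht0,
          abs_of_pos (show 0 < 1 - t by linarith)]
      rw [hpx'] at h3
      have h4 := mul_le_mul_of_nonneg_left (hple s' hs'1) (show 0 ≤ 1 - t by linarith)
      apply le_antisymm (hple s hs)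
      have h5 : t * 1 ≤ t * p (mk s 1 0) := by linarith
      exact le_of_mul_le_mul_left h5 ht0
    obtain ⟨W, hW1, hW2⟩ := flat_case p hp hp1 hs1 hε
    refine ⟨W, hW1, fun y hy hmax => ?_⟩
    obtain ⟨h6, l, hl, hyl⟩ := hW2 y hy hmax
    refine ⟨exposed hy (fun h => h6 h.1), l * (x.2.1)⁻¹, ?_, ?_⟩
    · rw [norm_mul, norm_inv, ha1, hl, inv_one, one_mul]
    · rw [mul_smul, ← hx']
      exact hyl
  · obtain ⟨g, hg, hgx, hg2⟩ := exposed hx hflat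
    have hgle : ∀ y : X3 𝕜, ‖g y‖ ≤ ‖y‖ := fun y => (g.le_opNorm y).trans (by
      calc ‖g‖ * ‖y‖ ≤ 1 * ‖y‖ := mul_le_mul_of_nonneg_right hg (norm_nonneg _)
        _ = ‖y‖ := one_mul _)
    refine ⟨LinearMap.id + ((ε : 𝕜) • (g : X3 𝕜 →ₗ[𝕜] 𝕜)).smulRight x, fun y => ?_, fun y hy hmax => ?_⟩
    · show ‖(y + ((ε : 𝕜) * g y) • x) - y‖ ≤ ε * ‖y‖
      rw [add_sub_cancel_left, norm_smul, norm_mul, hx, mul_one, RCLike.norm_ofReal, abs_of_pos hε]
      exact mul_le_mul_of_nonneg_left (hgle y) hε.le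
    · have h1 : p (x + ((ε : 𝕜) * g x) • x) ≤ p (y + ((ε : 𝕜) * g y) • x) := hmax x hx
      have h2 : x + ((ε : 𝕜) * g x) • x = ((1 + ε : ℝ) : 𝕜) • x := by
        rw [hgx, mul_one, RCLike.ofReal_add, RCLike.ofReal_one, add_smul, one_smul]
      rw [h2, map_smul_eq_mul, hpx, mul_one, RCLike.norm_ofReal, abs_of_pos (by positivity)] at h1
      have h3 : p (y + ((ε : 𝕜) * g y) • x) ≤ 1 + ε * ‖g y‖ := by
        refine (map_add_le_add p _ _).trans ?_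
        rw [map_smul_eq_mul, hpx, mul_one, norm_mul, RCLike.norm_ofReal, abs_of_pos hε]
        have := hp y
        rw [hy] at this
        linarith
      have h4 : ‖g y‖ = 1 := by
        apply le_antisymm ((hgle y).trans hy.le)
        have h5 : ε * 1 ≤ ε * ‖g y‖ := by linarith
        exact le_of_mul_le_mul_left h5 hε
      obtain ⟨c, hc, hyc⟩ := hg2 y hy.le h4
      refine ⟨?_, c, hc, ?_⟩
      · rw [hyc]
        exact Exposed.smul (exposed hx hflat) hc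
      · rw [hyc, sub_self, norm_zero]
        exact hε.le

section target

variable {Z : Type v} [NormedAddCommGroup Z] [NormedSpace 𝕜 Z]

noncomputable instance properX3 : ProperSpace (X3 𝕜) := FiniteDimensional.proper_rclike 𝕜 (X3 𝕜)

theorem sphere_nonempty : (Metric.sphere (0 : X3 𝕜) 1).Nonempty := by
  refine ⟨mk 0 1 0, ?_⟩
  rw [mem_sphere_zero_iff_norm, norm_flat (by rw [norm_zero, norm_one]; exact zero_le_one), norm_one]

/-- maximum points on the sphere -/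
theorem exists_max (T : X3 𝕜 →L[𝕜] Z) : ∃ y : X3 𝕜, ‖y‖ = 1 ∧ (∀ z : X3 𝕜, ‖z‖ = 1 → ‖T z‖ ≤ ‖T y‖) ∧ ‖T y‖ = ‖T‖ := by
  obtain ⟨y, hy, hmax⟩ := (isCompact_sphere (0 : X3 𝕜) 1).exists_isMaxOn sphere_nonempty
    (T.continuous.norm.continuousOn)
  rw [mem_sphere_zero_iff_norm] at hy
  have h1 : ∀ z : X3 𝕜, ‖z‖ = 1 → ‖T z‖ ≤ ‖T y‖ := fun z hz => hmax (mem_sphere_zero_iff_norm.2 hz)
  refine ⟨y, hy, h1, le_antisymm ?_ ?_⟩
  · have := T.le_opNorm y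
    rwa [hy, mul_one] at this
  · exact ContinuousLinearMap.opNorm_le_of_unit_norm (norm_nonneg _) h1

/-- the exact case -/
theorem exact_case {T : X3 𝕜 →L[𝕜] Z} {y : X3 𝕜} (hT : ‖T‖ = 1) (hy : ‖y‖ = 1) (hTy : ‖T y‖ = 1) {ε : ℝ}
    (hε : 0 < ε) : ∃ (S : X3 𝕜 →L[𝕜] Z) (z : X3 𝕜), ASE S ∧ ‖z‖ = 1 ∧ ‖S‖ = 1 ∧ ‖S z‖ = 1 ∧ ‖S - T‖ ≤ ε ∧
      ‖y - z‖ ≤ ε := by
  obtain ⟨δ, hδ⟩ : ∃ δ, δ = min (1 / 2) (ε / 5) := ⟨_, rfl⟩
  have hδ0 : 0 < δ := by rw [hδ]; exact lt_min (by norm_num) (by positivity)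
  have hδ1 : δ ≤ 1 / 2 := by rw [hδ]; exact min_le_left _ _
  have hδε : δ ≤ ε / 5 := by rw [hδ]; exact min_le_right _ _
  have hTle : ∀ w, ‖T w‖ ≤ ‖w‖ := fun w => by
    have := T.le_opNorm w
    rwa [hT, one_mul] at this
  obtain ⟨W, hW1, hW2⟩ := localize ((normSeminorm 𝕜 Z).comp (T : X3 𝕜 →ₗ[𝕜] Z)) (fun w => hTle w) hy hTy hδ0
  obtain ⟨V, hV⟩ : ∃ V : X3 𝕜 →L[𝕜] X3 𝕜, ∀ w, V w = W w := ⟨LinearMap.toContinuousLinearMap W, fun _ => rfl⟩
  obtain ⟨y₁, hy₁, hmax₁, hop₁⟩ := exists_max (T.comp V)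
  have hmax₁' : ∀ z : X3 𝕜, ‖z‖ = 1 → ‖T (W z)‖ ≤ ‖T (W y₁)‖ := fun z hz => by
    rw [← hV, ← hV]
    exact hmax₁ z hz
  obtain ⟨hexp, l, hl, hyl⟩ := hW2 y₁ hy₁ hmax₁'
  have hl0 : l ≠ 0 := by
    intro h0
    rw [h0, norm_zero] at hl
    exact zero_ne_one hl
  obtain ⟨g, hg, hgz, hg2⟩ := hexp.smul (c := l⁻¹) (by rw [norm_inv, hl, inv_one])
  obtain ⟨z, hz⟩ : ∃ z, z = l⁻¹ • y₁ := ⟨_, rfl⟩
  rw [← hz] at hgz hg2
  have hz1 : ‖z‖ = 1 := by rw [hz, norm_smul, norm_inv, hl, inv_one, one_mul, hy₁]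
  obtain ⟨A, hA⟩ : ∃ A, A = ‖T.comp V‖ := ⟨_, rfl⟩
  have hzA : ‖T (V z)‖ = A := by
    rw [hz, map_smul, map_smul, norm_smul, norm_inv, hl, inv_one, one_mul, hA, ← hop₁]
    rfl
  have hVsub : ∀ w, ‖V w - w‖ ≤ δ * ‖w‖ := fun w => by rw [hV]; exact hW1 w
  have hTV : ‖T.comp V - T‖ ≤ δ := by
    apply ContinuousLinearMap.opNorm_le_bound _ hδ0.le
    intro w
    have e1 : (T.comp V - T) w = T (V w - w) := by rw [map_sub]; rfl
    rw [e1]
    exact (hTle _).trans (hVsub w)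
  have hA1 : |A - 1| ≤ δ := by
    rw [hA]
    have h1 := abs_norm_sub_norm_le (T.comp V) T
    rw [hT] at h1
    exact h1.trans hTV
  have hAge : 1 / 2 ≤ A := by
    have := (abs_le.1 hA1).1
    linarith
  have hApos : 0 < A := by linarith
  have hgle : ∀ w : X3 𝕜, ‖g w‖ ≤ ‖w‖ := fun w => (g.le_opNorm w).trans (by
    calc ‖g‖ * ‖w‖ ≤ 1 * ‖w‖ := mul_le_mul_of_nonneg_right hg (norm_nonneg _)
      _ = ‖w‖ := one_mul _)
  -- the operator
  obtain ⟨r, hr⟩ : ∃ r : ℝ, r = ((1 + δ) * A)⁻¹ := ⟨_, rfl⟩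
  have hr0 : 0 < r := by rw [hr]; positivity
  have hrA : r * ((1 + δ) * A) = 1 := by
    rw [hr]
    exact inv_mul_cancel₀ (by positivity)
  obtain ⟨S, hS⟩ : ∃ S : X3 𝕜 →L[𝕜] Z, ∀ w, S w = (r : 𝕜) • (T (V w) + ((δ : 𝕜) * g w) • T (V z)) := by
    refine ⟨(r : 𝕜) • (T.comp V + ((δ : 𝕜) • g).smulRight (T (V z))), fun w => rfl⟩
  have hTVle : ∀ w, ‖T (V w)‖ ≤ A * ‖w‖ := fun w => by
    rw [hA]
    exact (T.comp V).le_opNorm w
  have nr : ‖(r : 𝕜)‖ = r := by rw [RCLike.norm_ofReal, abs_of_pos hr0]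
  have nδ : ‖(δ : 𝕜)‖ = δ := by rw [RCLike.norm_ofReal, abs_of_pos hδ0]
  have hSle : ∀ w, ‖S w‖ ≤ r * A * (‖w‖ + δ * ‖g w‖) := fun w => by
    rw [hS, norm_smul, nr, mul_assoc]
    apply mul_le_mul_of_nonneg_left _ hr0.le
    refine (norm_add_le _ _).trans ?_
    rw [norm_smul, norm_mul, nδ, hzA]
    have := hTVle w
    linarith
  have hSz : ‖S z‖ = 1 := by
    have e1 : S z = (((r * (1 + δ) : ℝ)) : 𝕜) • T (V z) := by
      rw [hS, hgz, mul_one, RCLike.ofReal_mul, RCLike.ofReal_add, RCLike.ofReal_one, mul_smul, add_smul, one_smul]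
    rw [e1, norm_smul, hzA, RCLike.norm_ofReal, abs_of_pos (by positivity), mul_assoc]
    exact hrA
  have hrA' : r * A * (1 + δ) = 1 := (show r * A * (1 + δ) = r * ((1 + δ) * A) by ring).trans hrA
  have hS1 : ‖S‖ = 1 := by
    apply le_antisymm
    · apply ContinuousLinearMap.opNorm_le_bound _ zero_le_one
      intro w
      refine (hSle w).trans ?_
      have h1 : r * A * (‖w‖ + δ * ‖g w‖) ≤ r * A * ((1 + δ) * ‖w‖) := by
        apply mul_le_mul_of_nonneg_left _ (by positivity)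
        have := mul_le_mul_of_nonneg_left (hgle w) hδ0.le
        linarith
      have h2 : r * A * ((1 + δ) * ‖w‖) = 1 * ‖w‖ := by rw [← mul_assoc, hrA']
      linarith
    · have := S.le_opNorm z
      rw [hSz, hz1, mul_one] at this
      exact this
  refine ⟨S, z, ⟨z, hz1, fun x hx hlim => ?_⟩, hz1, hS1, hSz, ?_, ?_⟩
  · rw [hS1] at hlim
    obtain ⟨w, hw, σ, hσ, hσw⟩ := (isCompact_closedBall (0 : X3 𝕜) 1).tendsto_subseq
      (fun n => mem_closedBall_zero_iff.2 (hx n))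
    rw [mem_closedBall_zero_iff] at hw
    have h1 : Tendsto (fun n => ‖S (x (σ n))‖) atTop (𝓝 ‖S w‖) := ((S.continuous.tendsto w).comp hσw).norm
    have h2 := hlim.comp hσ.tendsto_atTop
    have h3 : ‖S w‖ = 1 := tendsto_nhds_unique h1 h2
    have h4 := hSle w
    rw [h3] at h4
    have h5 : r * A * (‖w‖ + δ * ‖g w‖) ≤ r * A * (1 + δ * ‖g w‖) := by
      apply mul_le_mul_of_nonneg_left _ (by positivity)
      linarith
    have h6 : ‖g w‖ = 1 := by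
      apply le_antisymm ((hgle w).trans hw)
      by_contra hc
      push Not at hc
      have h7 : r * A * (1 + δ * ‖g w‖) < r * A * (1 + δ) := by
        apply mul_lt_mul_of_pos_left _ (by positivity)
        have := mul_lt_mul_of_pos_left hc hδ0
        linarith
      linarith
    obtain ⟨c, hc, hwc⟩ := hg2 w hw h6
    rw [hwc] at hσw
    exact ⟨σ, hσ, c, hc, hσw⟩
  · apply ContinuousLinearMap.opNorm_le_bound _ hε.le
    intro w
    have e1 : (S - T) w = (((1 - (1 + δ) * A : ℝ)) : 𝕜) • S w + ((T (V w) - T w) + ((δ : 𝕜) * g w) • T (V z)) := by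
      have e2 : (((1 + δ) * A : ℝ) : 𝕜) • S w = T (V w) + ((δ : 𝕜) * g w) • T (V z) := by
        rw [hS, smul_smul, ← RCLike.ofReal_mul]
        have : (1 + δ) * A * r = 1 := (show (1 + δ) * A * r = r * ((1 + δ) * A) by ring).trans hrA
        rw [this, RCLike.ofReal_one, one_smul]
      show S w - T w = _
      rw [RCLike.ofReal_sub, RCLike.ofReal_one, sub_smul, one_smul, e2]
      abel
    rw [e1]
    have hSw : ‖S w‖ ≤ ‖w‖ := by
      have := S.le_opNorm w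
      rwa [hS1, one_mul] at this
    have a1 : |1 - (1 + δ) * A| ≤ δ + δ * A := by
      have h1 := abs_le.1 hA1
      rw [abs_le]
      constructor
      · nlinarith [h1.1, h1.2]
      · nlinarith [h1.1, h1.2]
    have hA2 : A ≤ 3 / 2 := by
      have := (abs_le.1 hA1).2
      linarith
    have hTVT : ‖T (V w) - T w‖ ≤ δ * ‖w‖ := by
      rw [← map_sub]
      exact (hTle _).trans (hVsub w)
    have h3 : ‖((δ : 𝕜) * g w) • T (V z)‖ ≤ δ * ‖w‖ * A := by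
      rw [norm_smul, norm_mul, nδ, hzA]
      exact mul_le_mul_of_nonneg_right (mul_le_mul_of_nonneg_left (hgle w) hδ0.le) hApos.le
    have h4 : ‖(((1 - (1 + δ) * A : ℝ)) : 𝕜) • S w‖ ≤ (δ + δ * A) * ‖w‖ := by
      rw [norm_smul, RCLike.norm_ofReal]
      exact mul_le_mul a1 hSw (norm_nonneg _) (by positivity)
    refine (norm_add_le _ _).trans ((add_le_add h4 ((norm_add_le _ _).trans (add_le_add hTVT h3))).trans ?_)
    have h5 : (δ + δ * A) * ‖w‖ + (δ * ‖w‖ + δ * ‖w‖ * A) = (2 * δ + 2 * δ * A) * ‖w‖ := by ring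
    rw [h5]
    apply mul_le_mul_of_nonneg_right _ (norm_nonneg _)
    nlinarith
  · rw [norm_sub_rev]
    have e1 : z - y = l⁻¹ • (y₁ - l • y) := by
      rw [hz, smul_sub, smul_smul, inv_mul_cancel₀ hl0, one_smul]
    rw [e1, norm_smul, norm_inv, hl, inv_one, one_mul]
    linarith

end target

end Q99.UD
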