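import Mathlib

/-!
# A three-dimensional space whose unit sphere has one flat face
-/

set_option autoImplicit false
set_option linter.unusedSectionVars false
open Filter Topology Finset

namespace Q99.UD

/-! ### parameters -/

/-- the slopes -/
noncomputable def ee (k : ℕ) : ℝ := (1 / 10) ^ (k + 1)
/-- the weights -/
noncomputable def ww (k : ℕ) : ℝ := (1 / 2) ^ ((k + 2) ^ 2)

theorem ee_pos (k : ℕ) : 0 < ee k := by unfold ee; positivity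
theorem ww_pos (k : ℕ) : 0 < ww k := by unfold ww; positivity
theorem ee_le (k : ℕ) : ee k ≤ 1 / 10 := by
  unfold ee
  calc (1 / 10 : ℝ) ^ (k + 1) ≤ (1 / 10) ^ 1 := pow_le_pow_of_le_one (by norm_num) (by norm_num) (by omega)
    _ = 1 / 10 := pow_one _
theorem ee_lt {j k : ℕ} (h : j < k) : 10 * ee k ≤ ee j := by
  unfold ee
  calc 10 * (1 / 10 : ℝ) ^ (k + 1) = (1 / 10) ^ k := by rw [pow_succ]; ring
    _ ≤ (1 / 10) ^ (j + 1) := pow_le_pow_of_le_one (by norm_num) (by norm_num) (by omega)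
theorem ee_anti {j k : ℕ} (h : j ≤ k) : ee k ≤ ee j := by
  unfold ee
  exact pow_le_pow_of_le_one (by norm_num) (by norm_num) (by omega)
theorem ww_le (k : ℕ) : ww k ≤ (1 / 8) * (1 / 2) ^ (k + 1) := by
  unfold ww
  calc (1 / 2 : ℝ) ^ ((k + 2) ^ 2) ≤ (1 / 2) ^ (k + 1 + 3) :=
        pow_le_pow_of_le_one (by norm_num) (by norm_num) (by nlinarith)
    _ = (1 / 8) * (1 / 2) ^ (k + 1) := by rw [pow_add]; norm_num; ring
theorem ww_le' {K k : ℕ} (h : K ≤ k) : ww k ≤ (1 / 2) ^ K * (1 / 2) ^ (k + 1) := by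
  unfold ww
  rw [← pow_add]
  exact pow_le_pow_of_le_one (by norm_num) (by norm_num) (by nlinarith)
theorem ww_tail {K k : ℕ} (h : K < k) : ww k ≤ ww K * ((1 / 2) ^ K * (1 / 2) ^ (k + 1)) := by
  unfold ww
  rw [← pow_add, ← pow_add]
  exact pow_le_pow_of_le_one (by norm_num) (by norm_num) (by nlinarith)

theorem geo_sum : HasSum (fun k : ℕ => (1 / 2 : ℝ) ^ (k + 1)) 1 := by
  have h := hasSum_geometric_two
  have h2 := h.mul_left (1 / 2 : ℝ)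
  have h3 : (fun k : ℕ => (1 / 2 : ℝ) * (1 / 2) ^ k) = fun k => (1 / 2) ^ (k + 1) := by
    funext k
    rw [pow_succ]
    ring
  rw [h3] at h2
  norm_num at h2
  norm_num
  exact h2

theorem ww_summable : Summable ww := by
  refine Summable.of_nonneg_of_le (fun k => (ww_pos k).le) ww_le (geo_sum.summable.mul_left _)

theorem ww_sum_le : ∑' k, ww k ≤ 1 / 8 := by
  have h1 := (geo_sum.mul_left (1 / 8 : ℝ))
  have h2 := ww_summable.tsum_le_tsum ww_le h1.summable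
  rw [h1.tsum_eq, mul_one] at h2
  exact h2

section field

variable {𝕜 : Type} [RCLike 𝕜]

variable (𝕜) in
/-- a dense sequence in the unit disc -/
noncomputable def dd (n : ℕ) : 𝕜 :=
  open Classical in if ‖TopologicalSpace.denseSeq 𝕜 n‖ ≤ 1 then TopologicalSpace.denseSeq 𝕜 n else 0

theorem dd_le (n : ℕ) : ‖dd 𝕜 n‖ ≤ 1 := by
  classical
  unfold dd
  split_ifs with h
  · exact h
  · rw [norm_zero]
    exact zero_le_one

variable (𝕜) in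
/-- the centres -/
noncomputable def cc (k : ℕ) : 𝕜 := dd 𝕜 (Nat.unpair k).1

theorem cc_le (k : ℕ) : ‖cc 𝕜 k‖ ≤ 1 := dd_le _

theorem cc_frequently {z : 𝕜} (hz : ‖z‖ < 1) {ε : ℝ} (hε : 0 < ε) : ∃ᶠ k in atTop, ‖cc 𝕜 k - z‖ < ε := by
  classical
  obtain ⟨n, hn⟩ := (TopologicalSpace.denseRange_denseSeq 𝕜).exists_dist_lt z
    (show 0 < min ε (1 - ‖z‖) from lt_min hε (by linarith))
  have hn' : ‖TopologicalSpace.denseSeq 𝕜 n - z‖ < min ε (1 - ‖z‖) := by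
    rw [← dist_eq_norm, dist_comm]
    exact hn
  have h1 : ‖TopologicalSpace.denseSeq 𝕜 n‖ ≤ 1 := by
    have h2 := norm_sub_norm_le (TopologicalSpace.denseSeq 𝕜 n) z
    have h3 := lt_of_lt_of_le hn' (min_le_right _ _)
    linarith
  rw [Filter.frequently_atTop]
  intro a
  refine ⟨Nat.pair n a, Nat.right_le_pair n a, ?_⟩
  unfold cc dd
  rw [Nat.unpair_pair]
  show ‖(if ‖TopologicalSpace.denseSeq 𝕜 n‖ ≤ 1 then TopologicalSpace.denseSeq 𝕜 n else 0) - z‖ < ε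
  rw [if_pos h1]
  exact lt_of_lt_of_le hn' (min_le_left _ _)

/-! ### the quadratic pieces -/

/-- `‖a‖² + ‖b‖²` -/
noncomputable def vv (y : 𝕜 × 𝕜 × 𝕜) : ℝ := ‖y.2.1‖ ^ 2 + ‖y.2.2‖ ^ 2
/-- the hinge functions -/
noncomputable def ff (k : ℕ) (y : 𝕜 × 𝕜 × 𝕜) : ℝ :=
  ‖y.2.2‖ ^ 2 - 9 * ee k ^ 2 * ‖y.2.1‖ ^ 2 + ee k ^ 2 * ‖y.1 - cc 𝕜 k * y.2.1‖ ^ 2
/-- `vv + ff` -/
noncomputable def mm (k : ℕ) (y : 𝕜 × 𝕜 × 𝕜) : ℝ :=
  (1 - 9 * ee k ^ 2) * ‖y.2.1‖ ^ 2 + 2 * ‖y.2.2‖ ^ 2 + ee k ^ 2 * ‖y.1 - cc 𝕜 k * y.2.1‖ ^ 2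

theorem mm_eq (k : ℕ) (y : 𝕜 × 𝕜 × 𝕜) : mm k y = vv y + ff k y := by unfold mm vv ff; ring

theorem ee_sq_le (k : ℕ) : ee k ^ 2 ≤ 1 / 100 := by
  have h1 := ee_le k
  have h2 := ee_pos k
  nlinarith

/-- Minkowski inequality for three terms -/
theorem mink (p : Fin 3 → ℝ) (hp : ∀ i, 0 ≤ p i) (x y z : Fin 3 → ℝ) (hx : ∀ i, 0 ≤ x i) (hy : ∀ i, 0 ≤ y i)
    (hz : ∀ i, 0 ≤ z i) (h : ∀ i, z i ≤ x i + y i) :
    √(∑ i, p i * z i ^ 2) ≤ √(∑ i, p i * x i ^ 2) + √(∑ i, p i * y i ^ 2) := by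
  have key : ∀ u : Fin 3 → ℝ, (∀ i, 0 ≤ u i) →
      √(∑ i, p i * u i ^ 2) = ‖(WithLp.toLp 2 (fun i => √(p i) * u i) : EuclideanSpace ℝ (Fin 3))‖ := by
    intro u _
    rw [EuclideanSpace.norm_eq]
    congr 1
    apply Finset.sum_congr rfl
    intro i _
    show p i * u i ^ 2 = ‖√(p i) * u i‖ ^ 2
    rw [Real.norm_eq_abs, sq_abs, mul_pow, Real.sq_sqrt (hp i)]
  have h1 : √(∑ i, p i * z i ^ 2) ≤ √(∑ i, p i * (x i + y i) ^ 2) := by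
    apply Real.sqrt_le_sqrt
    apply Finset.sum_le_sum
    intro i _
    apply mul_le_mul_of_nonneg_left _ (hp i)
    exact pow_le_pow_left₀ (hz i) (h i) 2
  refine h1.trans ?_
  rw [key _ (fun i => add_nonneg (hx i) (hy i)), key x hx, key y hy]
  refine le_trans (le_of_eq ?_) (norm_add_le _ _)
  congr 1
  rw [← WithLp.toLp_add]
  congr 1
  funext i
  show √(p i) * (x i + y i) = √(p i) * x i + √(p i) * y i
  ring

theorem sqrt_vv_add (y z : 𝕜 × 𝕜 × 𝕜) : √(vv (y + z)) ≤ √(vv y) + √(vv z) := by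
  have h := mink ![1, 1, 0] (by intro i; fin_cases i <;> simp) ![‖y.2.1‖, ‖y.2.2‖, 0] ![‖z.2.1‖, ‖z.2.2‖, 0]
    ![‖(y + z).2.1‖, ‖(y + z).2.2‖, 0] (by intro i; fin_cases i <;> simp) (by intro i; fin_cases i <;> simp)
    (by intro i; fin_cases i <;> simp) (by
      intro i
      fin_cases i
      · exact norm_add_le y.2.1 z.2.1
      · exact norm_add_le y.2.2 z.2.2
      · simp)
  simpa [Fin.sum_univ_three, vv] using h

theorem sqrt_mm_add (k : ℕ) (y z : 𝕜 × 𝕜 × 𝕜) : √(mm k (y + z)) ≤ √(mm k y) + √(mm k z) := by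
  have h := mink ![1 - 9 * ee k ^ 2, 2, ee k ^ 2] (by
      intro i
      have := ee_sq_le k
      fin_cases i
      · show 0 ≤ 1 - 9 * ee k ^ 2
        linarith
      · show (0 : ℝ) ≤ 2
        norm_num
      · show 0 ≤ ee k ^ 2
        positivity)
    ![‖y.2.1‖, ‖y.2.2‖, ‖y.1 - cc 𝕜 k * y.2.1‖] ![‖z.2.1‖, ‖z.2.2‖, ‖z.1 - cc 𝕜 k * z.2.1‖]
    ![‖(y + z).2.1‖, ‖(y + z).2.2‖, ‖(y + z).1 - cc 𝕜 k * (y + z).2.1‖]
    (by intro i; fin_cases i <;> simp) (by intro i; fin_cases i <;> simp)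
    (by intro i; fin_cases i <;> simp) (by
      intro i
      fin_cases i
      · exact norm_add_le y.2.1 z.2.1
      · exact norm_add_le y.2.2 z.2.2
      · show ‖(y.1 + z.1) - cc 𝕜 k * (y.2.1 + z.2.1)‖ ≤ ‖y.1 - cc 𝕜 k * y.2.1‖ + ‖z.1 - cc 𝕜 k * z.2.1‖
        have e : (y.1 + z.1) - cc 𝕜 k * (y.2.1 + z.2.1) = (y.1 - cc 𝕜 k * y.2.1) + (z.1 - cc 𝕜 k * z.2.1) := by ring
        rw [e]
        exact norm_add_le _ _)
  simpa [Fin.sum_univ_three, mm] using h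

theorem vv_nonneg (y : 𝕜 × 𝕜 × 𝕜) : 0 ≤ vv y := by unfold vv; positivity
theorem mm_nonneg (k : ℕ) (y : 𝕜 × 𝕜 × 𝕜) : 0 ≤ mm k y := by
  unfold mm
  have := ee_sq_le k
  have : 0 ≤ 1 - 9 * ee k ^ 2 := by linarith
  positivity

/-- the family of seminorms -/
noncomputable def nn (y : 𝕜 × 𝕜 × 𝕜) : ℕ → ℝ
  | 0 => √(vv y)
  | 1 => max ‖y.1‖ √(vv y)
  | (k + 2) => max √(vv y) √(mm k y)

theorem nn_nonneg (y : 𝕜 × 𝕜 × 𝕜) (i : ℕ) : 0 ≤ nn y i := by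
  match i with
  | 0 => exact Real.sqrt_nonneg _
  | 1 => exact le_max_of_le_left (norm_nonneg _)
  | (k + 2) => exact le_max_of_le_left (Real.sqrt_nonneg _)

theorem nn_add (y z : 𝕜 × 𝕜 × 𝕜) (i : ℕ) : nn (y + z) i ≤ nn y i + nn z i := by
  match i with
  | 0 => exact sqrt_vv_add y z
  | 1 =>
    apply max_le
    · exact (norm_add_le y.1 z.1).trans (add_le_add (le_max_left _ _) (le_max_left _ _))
    · exact (sqrt_vv_add y z).trans (add_le_add (le_max_right _ _) (le_max_right _ _))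
  | (k + 2) =>
    apply max_le
    · exact (sqrt_vv_add y z).trans (add_le_add (le_max_left _ _) (le_max_left _ _))
    · exact (sqrt_mm_add k y z).trans (add_le_add (le_max_right _ _) (le_max_right _ _))

theorem vv_smul (c : 𝕜) (y : 𝕜 × 𝕜 × 𝕜) : vv (c • y) = ‖c‖ ^ 2 * vv y := by
  unfold vv
  show ‖c * y.2.1‖ ^ 2 + ‖c * y.2.2‖ ^ 2 = _
  rw [norm_mul, norm_mul]
  ring

theorem ff_smul (k : ℕ) (c : 𝕜) (y : 𝕜 × 𝕜 × 𝕜) : ff k (c • y) = ‖c‖ ^ 2 * ff k y := by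
  unfold ff
  show ‖c * y.2.2‖ ^ 2 - 9 * ee k ^ 2 * ‖c * y.2.1‖ ^ 2 + ee k ^ 2 * ‖c * y.1 - cc 𝕜 k * (c * y.2.1)‖ ^ 2 = _
  have e : c * y.1 - cc 𝕜 k * (c * y.2.1) = c * (y.1 - cc 𝕜 k * y.2.1) := by ring
  rw [e, norm_mul, norm_mul, norm_mul]
  ring

/-- the square of the norm -/
noncomputable def NN (y : 𝕜 × 𝕜 × 𝕜) : ℝ :=
  vv y + 1 / 4 * max (‖y.1‖ ^ 2 - vv y) 0 + ∑' k, ww k * max (ff k y) 0

theorem ff_le (k : ℕ) (y : 𝕜 × 𝕜 × 𝕜) : ff k y ≤ (‖y.1‖ + ‖y.2.1‖ + ‖y.2.2‖) ^ 2 := by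
  unfold ff
  have h1 : ‖y.1 - cc 𝕜 k * y.2.1‖ ≤ ‖y.1‖ + ‖y.2.1‖ := by
    refine (norm_sub_le _ _).trans ?_
    rw [norm_mul]
    have := mul_le_mul_of_nonneg_right (cc_le (𝕜 := 𝕜) k) (norm_nonneg y.2.1)
    linarith
  have h2 := ee_sq_le k
  have h3 : ‖y.1 - cc 𝕜 k * y.2.1‖ ^ 2 ≤ (‖y.1‖ + ‖y.2.1‖) ^ 2 := pow_le_pow_left₀ (norm_nonneg _) h1 2
  have h4 : 0 ≤ ee k ^ 2 := by positivity
  have h5 : ee k ^ 2 * ‖y.1 - cc 𝕜 k * y.2.1‖ ^ 2 ≤ 1 * (‖y.1‖ + ‖y.2.1‖) ^ 2 :=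
    mul_le_mul (by linarith) h3 (by positivity) (by norm_num)
  have h6 : 0 ≤ 9 * ee k ^ 2 * ‖y.2.1‖ ^ 2 := by positivity
  have h7 : 0 ≤ (‖y.1‖ + ‖y.2.1‖) * ‖y.2.2‖ := by positivity
  nlinarith

theorem summ (y : 𝕜 × 𝕜 × 𝕜) : Summable (fun k => ww k * max (ff k y) 0) := by
  refine Summable.of_nonneg_of_le (fun k => mul_nonneg (ww_pos k).le (le_max_right _ _)) (fun k => ?_)
    (ww_summable.mul_right ((‖y.1‖ + ‖y.2.1‖ + ‖y.2.2‖) ^ 2))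
  exact mul_le_mul_of_nonneg_left (max_le (ff_le k y) (by positivity)) (ww_pos k).le

/-- the weights of the family -/
noncomputable def wt : ℕ → ℝ
  | 0 => 3 / 4 - ∑' k, ww k
  | 1 => 1 / 4
  | (k + 2) => ww k

theorem wt_pos (i : ℕ) : 0 < wt i := by
  match i with
  | 0 =>
    have := ww_sum_le
    show 0 < 3 / 4 - ∑' k, ww k
    linarith
  | 1 =>
    show (0 : ℝ) < 1 / 4
    norm_num
  | (k + 2) => exact ww_pos k

theorem nn_zero_sq (y : 𝕜 × 𝕜 × 𝕜) : nn y 0 ^ 2 = vv y := Real.sq_sqrt (vv_nonneg y)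

theorem max_sq {x y : ℝ} (hx : 0 ≤ x) (hy : 0 ≤ y) : max x y ^ 2 = max (x ^ 2) (y ^ 2) := by
  rcases le_total x y with h | h
  · rw [max_eq_right h, max_eq_right (pow_le_pow_left₀ hx h 2)]
  · rw [max_eq_left h, max_eq_left (pow_le_pow_left₀ hy h 2)]

theorem nn_one_sq (y : 𝕜 × 𝕜 × 𝕜) : nn y 1 ^ 2 = vv y + max (‖y.1‖ ^ 2 - vv y) 0 := by
  show max ‖y.1‖ √(vv y) ^ 2 = _
  rw [max_sq (norm_nonneg _) (Real.sqrt_nonneg _), Real.sq_sqrt (vv_nonneg y)]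
  rcases le_total (‖y.1‖ ^ 2) (vv y) with h | h
  · rw [max_eq_right h, max_eq_right (by linarith), add_zero]
  · rw [max_eq_left h, max_eq_left (by linarith)]
    ring

theorem nn_succ_sq (y : 𝕜 × 𝕜 × 𝕜) (k : ℕ) : nn y (k + 2) ^ 2 = vv y + max (ff k y) 0 := by
  show max √(vv y) √(mm k y) ^ 2 = _
  rw [max_sq (Real.sqrt_nonneg _) (Real.sqrt_nonneg _), Real.sq_sqrt (vv_nonneg y), Real.sq_sqrt (mm_nonneg k y), mm_eq]
  rcases le_total (ff k y) 0 with h | h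
  · rw [max_eq_left (by linarith), max_eq_right h, add_zero]
  · rw [max_eq_right (by linarith), max_eq_left h]

theorem hasSum_wt (y : 𝕜 × 𝕜 × 𝕜) : HasSum (fun i => wt i * nn y i ^ 2) (NN y) := by
  have h1 : Summable (fun k => wt (k + 2) * nn y (k + 2) ^ 2) := by
    have : (fun k => wt (k + 2) * nn y (k + 2) ^ 2) = fun k => ww k * vv y + ww k * max (ff k y) 0 := by
      funext k
      rw [nn_succ_sq]
      show ww k * (vv y + max (ff k y) 0) = _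
      ring
    rw [this]
    exact (ww_summable.mul_right _).add (summ y)
  have h2 : Summable (fun i => wt i * nn y i ^ 2) := (summable_nat_add_iff 2).1 h1
  have h3 := h2.sum_add_tsum_nat_add 2
  rw [Finset.sum_range_succ, Finset.sum_range_one] at h3
  have h4 : ∑' k, wt (k + 2) * nn y (k + 2) ^ 2 = (∑' k, ww k) * vv y + ∑' k, ww k * max (ff k y) 0 := by
    have : (fun k => wt (k + 2) * nn y (k + 2) ^ 2) = fun k => ww k * vv y + ww k * max (ff k y) 0 := by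
      funext k
      rw [nn_succ_sq]
      show ww k * (vv y + max (ff k y) 0) = _
      ring
    rw [this, (ww_summable.mul_right _).tsum_add (summ y), tsum_mul_right]
  rw [h4, nn_zero_sq, nn_one_sq] at h3
  have h5 : wt 0 * vv y + wt 1 * (vv y + max (‖y.1‖ ^ 2 - vv y) 0) +
      ((∑' k, ww k) * vv y + ∑' k, ww k * max (ff k y) 0) = NN y := by
    show (3 / 4 - ∑' k, ww k) * vv y + 1 / 4 * (vv y + max (‖y.1‖ ^ 2 - vv y) 0) +
      ((∑' k, ww k) * vv y + ∑' k, ww k * max (ff k y) 0) = NN y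
    unfold NN
    ring
  rw [← h5, h3]
  exact h2.hasSum

theorem NN_nonneg (y : 𝕜 × 𝕜 × 𝕜) : 0 ≤ NN y :=
  (hasSum_wt y).nonneg fun i => mul_nonneg (wt_pos i).le (sq_nonneg _)

theorem NN_smul (c : 𝕜) (y : 𝕜 × 𝕜 × 𝕜) : NN (c • y) = ‖c‖ ^ 2 * NN y := by
  unfold NN
  rw [vv_smul, mul_add, mul_add, ← tsum_mul_left]
  have h1 : ‖(c • y).1‖ ^ 2 = ‖c‖ ^ 2 * ‖y.1‖ ^ 2 := by
    show ‖c * y.1‖ ^ 2 = _
    rw [norm_mul]
    ring
  have h2 : ∀ t : ℝ, max (‖c‖ ^ 2 * t) 0 = ‖c‖ ^ 2 * max t 0 := fun t => by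
    rw [mul_max_of_nonneg _ _ (sq_nonneg _), mul_zero]
  have h3 : ‖c‖ ^ 2 * ‖y.1‖ ^ 2 - ‖c‖ ^ 2 * vv y = ‖c‖ ^ 2 * (‖y.1‖ ^ 2 - vv y) := by ring
  rw [h1, h3, h2]
  have h4 : (fun k => ww k * max (ff k (c • y)) 0) = fun k => ‖c‖ ^ 2 * (ww k * max (ff k y) 0) := by
    funext k
    rw [ff_smul, h2]
    ring
  rw [h4]
  ring

theorem sqrt_NN_add (y z : 𝕜 × 𝕜 × 𝕜) : √(NN (y + z)) ≤ √(NN y) + √(NN z) := by
  have hs : ∀ u : 𝕜 × 𝕜 × 𝕜, Summable (fun i => (√(wt i) * nn u i) ^ (2 : ℝ)) := by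
    intro u
    have : (fun i => (√(wt i) * nn u i) ^ (2 : ℝ)) = fun i => wt i * nn u i ^ 2 := by
      funext i
      rw [Real.rpow_two, mul_pow, Real.sq_sqrt (wt_pos i).le]
    rw [this]
    exact (hasSum_wt u).summable
  have he : ∀ u : 𝕜 × 𝕜 × 𝕜, (∑' i, (√(wt i) * nn u i) ^ (2 : ℝ)) ^ (1 / (2 : ℝ)) = √(NN u) := by
    intro u
    have : (fun i => (√(wt i) * nn u i) ^ (2 : ℝ)) = fun i => wt i * nn u i ^ 2 := by
      funext i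
      rw [Real.rpow_two, mul_pow, Real.sq_sqrt (wt_pos i).le]
    rw [this, (hasSum_wt u).tsum_eq, ← Real.sqrt_eq_rpow]
  obtain ⟨h1, h2⟩ := Real.Lp_add_le_tsum_of_nonneg (p := 2) (by norm_num)
    (fun i => mul_nonneg (Real.sqrt_nonneg (wt i)) (nn_nonneg y i))
    (fun i => mul_nonneg (Real.sqrt_nonneg (wt i)) (nn_nonneg z i)) (hs y) (hs z)
  rw [he, he] at h2
  refine le_trans ?_ h2
  rw [← he]
  apply Real.rpow_le_rpow (tsum_nonneg fun i => Real.rpow_nonneg (mul_nonneg (Real.sqrt_nonneg _) (nn_nonneg _ _)) _)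
    _ (by norm_num)
  apply (hs (y + z)).tsum_le_tsum _ h1
  intro i
  apply Real.rpow_le_rpow (mul_nonneg (Real.sqrt_nonneg _) (nn_nonneg _ _)) _ (by norm_num)
  rw [← mul_add]
  exact mul_le_mul_of_nonneg_left (nn_add y z i) (Real.sqrt_nonneg _)

theorem vv_le_NN (y : 𝕜 × 𝕜 × 𝕜) : vv y ≤ NN y := by
  unfold NN
  have h1 : 0 ≤ max (‖y.1‖ ^ 2 - vv y) 0 := le_max_right _ _
  have h2 : 0 ≤ ∑' k, ww k * max (ff k y) 0 := tsum_nonneg fun k => mul_nonneg (ww_pos k).le (le_max_right _ _)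
  linarith

theorem s_le_NN (y : 𝕜 × 𝕜 × 𝕜) : 1 / 4 * ‖y.1‖ ^ 2 + 3 / 4 * vv y ≤ NN y := by
  unfold NN
  have h1 : ‖y.1‖ ^ 2 - vv y ≤ max (‖y.1‖ ^ 2 - vv y) 0 := le_max_left _ _
  have h2 : 0 ≤ ∑' k, ww k * max (ff k y) 0 := tsum_nonneg fun k => mul_nonneg (ww_pos k).le (le_max_right _ _)
  linarith

theorem eq_zero_of_NN {y : 𝕜 × 𝕜 × 𝕜} (h : NN y = 0) : y = 0 := by
  have h1 := s_le_NN y
  rw [h] at h1
  have h2 := vv_nonneg y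
  have h3 : ‖y.1‖ = 0 := by
    have : ‖y.1‖ ^ 2 ≤ 0 := by nlinarith [sq_nonneg ‖y.1‖]
    nlinarith [norm_nonneg y.1]
  have h4 : vv y = 0 := by nlinarith [sq_nonneg ‖y.1‖]
  unfold vv at h4
  have h5 : ‖y.2.1‖ = 0 := by nlinarith [norm_nonneg y.2.1, sq_nonneg ‖y.2.1‖, sq_nonneg ‖y.2.2‖]
  have h6 : ‖y.2.2‖ = 0 := by nlinarith [norm_nonneg y.2.2, sq_nonneg ‖y.2.1‖, sq_nonneg ‖y.2.2‖]
  exact Prod.ext (norm_eq_zero.1 h3) (Prod.ext (norm_eq_zero.1 h5) (norm_eq_zero.1 h6))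

end field

/-! ### the space -/

/-- The three-dimensional space. -/
def X3 (𝕜 : Type) : Type := 𝕜 × 𝕜 × 𝕜

section space

variable {𝕜 : Type} [RCLike 𝕜]

section raw

/-- coordinatewise addition -/
local instance x3ACG : AddCommGroup (X3 𝕜) := inferInstanceAs (AddCommGroup (𝕜 × 𝕜 × 𝕜))
/-- coordinatewise scalar multiplication -/
local instance x3Mod : Module 𝕜 (X3 𝕜) := inferInstanceAs (Module 𝕜 (𝕜 × 𝕜 × 𝕜))

noncomputable instance : Norm (X3 𝕜) := ⟨fun y => √(NN (𝕜 := 𝕜) y)⟩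

theorem X3.core : NormedSpace.Core 𝕜 (X3 𝕜) where
  norm_nonneg _ := Real.sqrt_nonneg _
  norm_smul c y := by
    show √(NN (𝕜 := 𝕜) (c • y)) = ‖c‖ * √(NN (𝕜 := 𝕜) y)
    have h : NN (𝕜 := 𝕜) (c • y) = ‖c‖ ^ 2 * NN (𝕜 := 𝕜) y := NN_smul c y
    rw [h, Real.sqrt_mul (sq_nonneg _), Real.sqrt_sq (norm_nonneg _)]
  norm_triangle y z := sqrt_NN_add (𝕜 := 𝕜) y z
  norm_eq_zero_iff y := by
    constructor
    · intro h
      have h1 : √(NN (𝕜 := 𝕜) y) = 0 := h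
      rw [Real.sqrt_eq_zero (NN_nonneg _)] at h1
      exact eq_zero_of_NN h1
    · rintro rfl
      show √(NN (𝕜 := 𝕜) 0) = 0
      have h := NN_smul (0 : 𝕜) (0 : 𝕜 × 𝕜 × 𝕜)
      rw [smul_zero, norm_zero, zero_pow two_ne_zero, zero_mul] at h
      rw [h, Real.sqrt_zero]

noncomputable instance : NormedAddCommGroup (X3 𝕜) := NormedAddCommGroup.ofCore (X3.core (𝕜 := 𝕜))
noncomputable instance : NormedSpace 𝕜 (X3 𝕜) := NormedSpace.ofCore (X3.core (𝕜 := 𝕜))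

end raw

/-- Constructor. -/
def mk (s a b : 𝕜) : X3 𝕜 := (s, a, b)

theorem norm_sq_eq (y : X3 𝕜) : ‖y‖ ^ 2 = NN (𝕜 := 𝕜) y := Real.sq_sqrt (NN_nonneg (𝕜 := 𝕜) y)

theorem norm_eq (y : X3 𝕜) : ‖y‖ = √(NN (𝕜 := 𝕜) y) := rfl

noncomputable instance : FiniteDimensional 𝕜 (X3 𝕜) :=
  inferInstanceAs (FiniteDimensional 𝕜 (𝕜 × 𝕜 × 𝕜))

theorem finrank_X3 : Module.finrank 𝕜 (X3 𝕜) = 3 := by
  have h : Module.finrank 𝕜 (𝕜 × 𝕜 × 𝕜) = 3 := by simp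
  exact h

end space

end Q99.UD
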