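import Pool.Agent.Q99.UD.Seg

/-!
# The rotations and the main estimate
-/

set_option autoImplicit false
set_option linter.unusedSectionVars false
open Filter Topology Finset

namespace Q99.UD

variable {𝕜 : Type} [RCLike 𝕜]

theorem nsq (z : 𝕜) : ‖z‖ ^ 2 = RCLike.re z ^ 2 + RCLike.im z ^ 2 := by
  rw [RCLike.norm_sq_eq_def]
  ring

theorem comb_sq (c d : ℝ) (a b : 𝕜) : ‖(c : 𝕜) * a + (d : 𝕜) * b‖ ^ 2 =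
    c ^ 2 * ‖a‖ ^ 2 + d ^ 2 * ‖b‖ ^ 2 + 2 * c * d * (RCLike.re a * RCLike.re b + RCLike.im a * RCLike.im b) := by
  rw [nsq, nsq a, nsq b, map_add, map_add, RCLike.re_ofReal_mul, RCLike.re_ofReal_mul, RCLike.im_ofReal_mul,
    RCLike.im_ofReal_mul]
  ring

/-- the rotation in the last two coordinates -/
def rot (C S : ℝ) (y : 𝕜 × 𝕜 × 𝕜) : 𝕜 × 𝕜 × 𝕜 :=
  (y.1, (C : 𝕜) * y.2.1 + (S : 𝕜) * y.2.2, ((-S : ℝ) : 𝕜) * y.2.1 + (C : 𝕜) * y.2.2)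

theorem vv_rot {C S : ℝ} (h : C ^ 2 + S ^ 2 = 1) (y : 𝕜 × 𝕜 × 𝕜) : vv (rot C S y) = vv y := by
  show ‖(C : 𝕜) * y.2.1 + (S : 𝕜) * y.2.2‖ ^ 2 + ‖((-S : ℝ) : 𝕜) * y.2.1 + (C : 𝕜) * y.2.2‖ ^ 2 =
    ‖y.2.1‖ ^ 2 + ‖y.2.2‖ ^ 2
  rw [comb_sq, comb_sq]
  linear_combination (‖y.2.1‖ ^ 2 + ‖y.2.2‖ ^ 2) * h

theorem NN_zero_le (a b : 𝕜) : NN ((0, a, b) : 𝕜 × 𝕜 × 𝕜) ≤ 9 / 8 * (‖a‖ ^ 2 + ‖b‖ ^ 2) := by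
  have h1 : ∀ k, max (ff k ((0, a, b) : 𝕜 × 𝕜 × 𝕜)) 0 ≤ ‖b‖ ^ 2 := by
    intro k
    apply max_le _ (sq_nonneg _)
    show ‖b‖ ^ 2 - 9 * ee k ^ 2 * ‖a‖ ^ 2 + ee k ^ 2 * ‖0 - cc 𝕜 k * a‖ ^ 2 ≤ ‖b‖ ^ 2
    have h2 : ‖0 - cc 𝕜 k * a‖ ≤ ‖a‖ := by
      rw [zero_sub, norm_neg, norm_mul]
      have := mul_le_mul_of_nonneg_right (cc_le (𝕜 := 𝕜) k) (norm_nonneg a)
      linarith
    have h3 : ‖0 - cc 𝕜 k * a‖ ^ 2 ≤ ‖a‖ ^ 2 := pow_le_pow_left₀ (norm_nonneg _) h2 2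
    have h4 : 0 ≤ ee k ^ 2 := by positivity
    nlinarith [mul_le_mul_of_nonneg_left h3 h4, mul_nonneg h4 (sq_nonneg ‖a‖)]
  have h2 : ∑' k, ww k * max (ff k ((0, a, b) : 𝕜 × 𝕜 × 𝕜)) 0 ≤ 1 / 8 * ‖b‖ ^ 2 := by
    have h3 := (summ ((0, a, b) : 𝕜 × 𝕜 × 𝕜)).tsum_le_tsum
      (fun k => mul_le_mul_of_nonneg_left (h1 k) (ww_pos k).le) (ww_summable.mul_right _)
    rw [tsum_mul_right] at h3
    have h4 := mul_le_mul_of_nonneg_right ww_sum_le (sq_nonneg ‖b‖)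
    linarith
  have h5 : max (‖(0 : 𝕜)‖ ^ 2 - (‖a‖ ^ 2 + ‖b‖ ^ 2)) 0 = 0 := by
    apply max_eq_right
    rw [norm_zero]
    have := sq_nonneg ‖a‖
    have := sq_nonneg ‖b‖
    linarith
  show (‖a‖ ^ 2 + ‖b‖ ^ 2) + 1 / 4 * max (‖(0 : 𝕜)‖ ^ 2 - (‖a‖ ^ 2 + ‖b‖ ^ 2)) 0 +
    ∑' k, ww k * max (ff k ((0, a, b) : 𝕜 × 𝕜 × 𝕜)) 0 ≤ _
  rw [h5]
  have := sq_nonneg ‖a‖
  linarith

theorem norm_le_coords (y : X3 𝕜) : ‖y‖ ≤ 2 * (‖y.1‖ + ‖y.2.1‖ + ‖y.2.2‖) := by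
  apply le_of_sq_le_sq _ (by positivity)
  rw [norm_sq_eq]
  have h2 : ∑' k, ww k * max (ff (𝕜 := 𝕜) k y) 0 ≤ 1 / 8 * (‖y.1‖ + ‖y.2.1‖ + ‖y.2.2‖) ^ 2 := by
    have h3 := (summ (𝕜 := 𝕜) y).tsum_le_tsum
      (fun k => mul_le_mul_of_nonneg_left (max_le (ff_le (𝕜 := 𝕜) k y) (by positivity)) (ww_pos k).le)
      (ww_summable.mul_right _)
    rw [tsum_mul_right] at h3
    have h4 := mul_le_mul_of_nonneg_right ww_sum_le (sq_nonneg (‖y.1‖ + ‖y.2.1‖ + ‖y.2.2‖))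
    linarith
  have h5 : max (‖y.1‖ ^ 2 - (‖y.2.1‖ ^ 2 + ‖y.2.2‖ ^ 2)) 0 ≤ ‖y.1‖ ^ 2 := by
    apply max_le _ (sq_nonneg _)
    have := sq_nonneg ‖y.2.1‖
    have := sq_nonneg ‖y.2.2‖
    linarith
  show (‖y.2.1‖ ^ 2 + ‖y.2.2‖ ^ 2) + 1 / 4 * max (‖y.1‖ ^ 2 - (‖y.2.1‖ ^ 2 + ‖y.2.2‖ ^ 2)) 0 +
    ∑' k, ww k * max (ff (𝕜 := 𝕜) k y) 0 ≤ _
  have n1 := norm_nonneg y.1
  have n2 := norm_nonneg y.2.1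
  have n3 := norm_nonneg y.2.2
  nlinarith [mul_nonneg n1 n2, mul_nonneg n1 n3, mul_nonneg n2 n3]

theorem vv_le_one {y : X3 𝕜} (hy : ‖y‖ = 1) : vv (𝕜 := 𝕜) y ≤ 1 := by
  have h1 := vv_le_NN (𝕜 := 𝕜) y
  rw [← norm_sq_eq, hy, one_pow] at h1
  exact h1

/-- The data of the rotation at level `K`. -/
structure Ang (K : ℕ) (C S : ℝ) : Prop where
  sq : C ^ 2 + S ^ 2 = 1
  tan : S = 3 * ee K * C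
  Cpos : 0 < C
  Cle : C ≤ 1
  Cge : 9 / 10 ≤ C ^ 2

theorem exists_ang (K : ℕ) : ∃ C S : ℝ, Ang K C S := by
  have he := ee_pos K
  have he2 := ee_sq_le K
  have h1 : 0 < 1 + 9 * ee K ^ 2 := by positivity
  have hs : 0 < √(1 + 9 * ee K ^ 2) := Real.sqrt_pos.2 h1
  have hsq : √(1 + 9 * ee K ^ 2) ^ 2 = 1 + 9 * ee K ^ 2 := Real.sq_sqrt h1.le
  have hC2 : (1 / √(1 + 9 * ee K ^ 2)) ^ 2 = 1 / (1 + 9 * ee K ^ 2) := by rw [div_pow, one_pow, hsq]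
  refine ⟨1 / √(1 + 9 * ee K ^ 2), 3 * ee K * (1 / √(1 + 9 * ee K ^ 2)), ⟨?_, rfl, by positivity, ?_, ?_⟩⟩
  · rw [mul_pow, hC2]
    field_simp
    ring
  · rw [div_le_one hs]
    apply Real.le_sqrt_of_sq_le
    nlinarith
  · rw [hC2, le_div_iff₀ h1]
    linarith

namespace Ang

variable {K : ℕ} {C S : ℝ} (h : Ang K C S)
include h

theorem Spos : 0 < S := by
  rw [h.tan]
  have := ee_pos K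
  have := h.Cpos
  positivity

theorem Sle : S ≤ 3 * ee K := by
  have h1 := h.Cle
  have h2 := ee_pos K
  rw [h.tan]
  nlinarith

theorem Sle1 : S ≤ 3 / 10 := by
  have := h.Sle
  have := ee_le K
  linarith

/-- moving a point by the rotation -/
theorem move (y : X3 𝕜) : ‖(show X3 𝕜 from rot (𝕜 := 𝕜) C S y) - y‖ ≤ 5 * ee K * ‖y‖ := by
  have he := ee_pos K
  apply le_of_sq_le_sq _ (by positivity)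
  rw [norm_sq_eq, mul_pow, norm_sq_eq]
  have e1 : ((show X3 𝕜 from rot (𝕜 := 𝕜) C S y) - y : X3 𝕜) =
      Q99.UD.mk 0 (((C - 1 : ℝ) : 𝕜) * y.2.1 + (S : 𝕜) * y.2.2) (((-S : ℝ) : 𝕜) * y.2.1 + ((C - 1 : ℝ) : 𝕜) * y.2.2) := by
    refine Prod.ext ?_ (Prod.ext ?_ ?_)
    · show y.1 - y.1 = 0
      rw [sub_self]
    · show ((C : 𝕜) * y.2.1 + (S : 𝕜) * y.2.2) - y.2.1 = ((C - 1 : ℝ) : 𝕜) * y.2.1 + (S : 𝕜) * y.2.2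
      rw [RCLike.ofReal_sub, RCLike.ofReal_one]
      ring
    · show (((-S : ℝ) : 𝕜) * y.2.1 + (C : 𝕜) * y.2.2) - y.2.2 = ((-S : ℝ) : 𝕜) * y.2.1 + ((C - 1 : ℝ) : 𝕜) * y.2.2
      rw [RCLike.ofReal_sub, RCLike.ofReal_one]
      ring
  rw [e1]
  have h1 := NN_zero_le (((C - 1 : ℝ) : 𝕜) * y.2.1 + (S : 𝕜) * y.2.2) (((-S : ℝ) : 𝕜) * y.2.1 + ((C - 1 : ℝ) : 𝕜) * y.2.2)
  rw [comb_sq, comb_sq] at h1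
  have h2 : (C - 1) ^ 2 + S ^ 2 ≤ 2 * S ^ 2 := by
    have h3 := h.sq
    have h4 := h.Cle
    have h5 := h.Cpos
    nlinarith
  have h3 : S ^ 2 ≤ 9 * ee K ^ 2 := by
    have := h.Sle
    have := h.Spos
    nlinarith
  have h4 := vv_le_NN (𝕜 := 𝕜) y
  have h5 : vv (𝕜 := 𝕜) y = ‖y.2.1‖ ^ 2 + ‖y.2.2‖ ^ 2 := rfl
  refine h1.trans ?_
  have h6 : 9 / 8 * ((C - 1) ^ 2 * ‖y.2.1‖ ^ 2 + S ^ 2 * ‖y.2.2‖ ^ 2 +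
      2 * (C - 1) * S * (RCLike.re y.2.1 * RCLike.re y.2.2 + RCLike.im y.2.1 * RCLike.im y.2.2) +
      ((-S) ^ 2 * ‖y.2.1‖ ^ 2 + (C - 1) ^ 2 * ‖y.2.2‖ ^ 2 +
      2 * -S * (C - 1) * (RCLike.re y.2.1 * RCLike.re y.2.2 + RCLike.im y.2.1 * RCLike.im y.2.2))) =
      9 / 8 * ((C - 1) ^ 2 + S ^ 2) * vv (𝕜 := 𝕜) y := by
    rw [h5]
    ring
  rw [h6]
  have h7 := vv_nonneg (𝕜 := 𝕜) y
  have h8 : 9 / 8 * ((C - 1) ^ 2 + S ^ 2) ≤ 25 * ee K ^ 2 := by nlinarith [sq_nonneg (ee K)]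
  have h9 : 9 / 8 * ((C - 1) ^ 2 + S ^ 2) * vv (𝕜 := 𝕜) y ≤ 25 * ee K ^ 2 * vv (𝕜 := 𝕜) y :=
    mul_le_mul_of_nonneg_right h8 h7
  have h10 : 25 * ee K ^ 2 * vv (𝕜 := 𝕜) y ≤ 25 * ee K ^ 2 * NN (𝕜 := 𝕜) y :=
    mul_le_mul_of_nonneg_left h4 (by positivity)
  have h11 : (5 * ee K) ^ 2 = 25 * ee K ^ 2 := by ring
  rw [h11]
  linarith

/-- the norm of the distinguished point -/
theorem NN_point : NN ((cc 𝕜 K * (C : 𝕜), (C : 𝕜), (S : 𝕜)) : 𝕜 × 𝕜 × 𝕜) ≤ 1 + 9 * ee K ^ 2 * ww K * (1 / 2) ^ K := by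
  have he := ee_pos K
  have hC := h.Cpos
  have hS := h.Spos
  have nC : ‖(C : 𝕜)‖ = C := by rw [RCLike.norm_ofReal, abs_of_pos hC]
  have nS : ‖(S : 𝕜)‖ = S := by rw [RCLike.norm_ofReal, abs_of_pos hS]
  have hS2 : S ^ 2 = 9 * ee K ^ 2 * C ^ 2 := by
    rw [h.tan]
    ring
  have hvv : vv ((cc 𝕜 K * (C : 𝕜), (C : 𝕜), (S : 𝕜)) : 𝕜 × 𝕜 × 𝕜) = 1 := by
    show ‖(C : 𝕜)‖ ^ 2 + ‖(S : 𝕜)‖ ^ 2 = 1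
    rw [nC, nS, h.sq]
  have hff : ∀ k, ff k ((cc 𝕜 K * (C : 𝕜), (C : 𝕜), (S : 𝕜)) : 𝕜 × 𝕜 × 𝕜) =
      C ^ 2 * (9 * ee K ^ 2 - 9 * ee k ^ 2 + ee k ^ 2 * ‖cc 𝕜 K - cc 𝕜 k‖ ^ 2) := by
    intro k
    show ‖(S : 𝕜)‖ ^ 2 - 9 * ee k ^ 2 * ‖(C : 𝕜)‖ ^ 2 + ee k ^ 2 * ‖cc 𝕜 K * (C : 𝕜) - cc 𝕜 k * (C : 𝕜)‖ ^ 2 = _
    rw [← sub_mul, norm_mul, nC, nS, hS2]
    ring
  have hcc : ∀ k, ‖cc 𝕜 K - cc 𝕜 k‖ ^ 2 ≤ 4 := by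
    intro k
    have h1 : ‖cc 𝕜 K - cc 𝕜 k‖ ≤ 2 := (norm_sub_le _ _).trans (by
      have := cc_le (𝕜 := 𝕜) K
      have := cc_le (𝕜 := 𝕜) k
      linarith)
    nlinarith [norm_nonneg (cc 𝕜 K - cc 𝕜 k)]
  have hC2 : C ^ 2 ≤ 1 := by nlinarith [h.Cle]
  have hmaj : ∀ k, ww k * max (ff k ((cc 𝕜 K * (C : 𝕜), (C : 𝕜), (S : 𝕜)) : 𝕜 × 𝕜 × 𝕜)) 0 ≤
      9 * ee K ^ 2 * ww K * (1 / 2) ^ K * (1 / 2) ^ (k + 1) := by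
    intro k
    have hnn : 0 ≤ 9 * ee K ^ 2 * ww K * (1 / 2) ^ K * (1 / 2) ^ (k + 1) := by
      have := ww_pos K
      positivity
    rcases Nat.lt_trichotomy k K with hk | hk | hk
    · have h1 : ff k ((cc 𝕜 K * (C : 𝕜), (C : 𝕜), (S : 𝕜)) : 𝕜 × 𝕜 × 𝕜) ≤ 0 := by
        rw [hff]
        have h2 := ee_lt hk
        have h3 := hcc k
        have h4 : 9 * ee K ^ 2 - 9 * ee k ^ 2 + ee k ^ 2 * ‖cc 𝕜 K - cc 𝕜 k‖ ^ 2 ≤ 0 := by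
          have h5 : ee k ^ 2 * ‖cc 𝕜 K - cc 𝕜 k‖ ^ 2 ≤ ee k ^ 2 * 4 := mul_le_mul_of_nonneg_left h3 (by positivity)
          nlinarith [ee_pos k]
        exact mul_nonpos_of_nonneg_of_nonpos (by positivity) h4
      rw [max_eq_right h1, mul_zero]
      exact hnn
    · subst hk
      have h1 : ff k ((cc 𝕜 k * (C : 𝕜), (C : 𝕜), (S : 𝕜)) : 𝕜 × 𝕜 × 𝕜) = 0 := by
        rw [hff, sub_self, sub_self, norm_zero]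
        ring
      rw [h1, max_self, mul_zero]
      exact hnn
    · have h1 : max (ff k ((cc 𝕜 K * (C : 𝕜), (C : 𝕜), (S : 𝕜)) : 𝕜 × 𝕜 × 𝕜)) 0 ≤ 9 * ee K ^ 2 := by
        apply max_le _ (by positivity)
        rw [hff]
        have h3 := hcc k
        have h5 : ee k ^ 2 * ‖cc 𝕜 K - cc 𝕜 k‖ ^ 2 ≤ ee k ^ 2 * 4 := mul_le_mul_of_nonneg_left h3 (by positivity)
        have h4 : 9 * ee K ^ 2 - 9 * ee k ^ 2 + ee k ^ 2 * ‖cc 𝕜 K - cc 𝕜 k‖ ^ 2 ≤ 9 * ee K ^ 2 := by nlinarith [sq_nonneg (ee k)]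
        calc C ^ 2 * (9 * ee K ^ 2 - 9 * ee k ^ 2 + ee k ^ 2 * ‖cc 𝕜 K - cc 𝕜 k‖ ^ 2) ≤ C ^ 2 * (9 * ee K ^ 2) :=
              mul_le_mul_of_nonneg_left h4 (by positivity)
          _ ≤ 1 * (9 * ee K ^ 2) := mul_le_mul_of_nonneg_right hC2 (by positivity)
          _ = 9 * ee K ^ 2 := one_mul _
      calc ww k * max (ff k ((cc 𝕜 K * (C : 𝕜), (C : 𝕜), (S : 𝕜)) : 𝕜 × 𝕜 × 𝕜)) 0
          ≤ (ww K * ((1 / 2) ^ K * (1 / 2) ^ (k + 1))) * (9 * ee K ^ 2) :=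
            mul_le_mul (ww_tail hk) h1 (le_max_right _ _) (by have := ww_pos K; positivity)
        _ = 9 * ee K ^ 2 * ww K * (1 / 2) ^ K * (1 / 2) ^ (k + 1) := by ring
  have h1 := geo_sum.mul_left (9 * ee K ^ 2 * ww K * (1 / 2) ^ K)
  have h2 := (summ ((cc 𝕜 K * (C : 𝕜), (C : 𝕜), (S : 𝕜)) : 𝕜 × 𝕜 × 𝕜)).tsum_le_tsum hmaj h1.summable
  rw [h1.tsum_eq, mul_one] at h2
  unfold NN
  rw [hvv]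
  have h3 : max (‖cc 𝕜 K * (C : 𝕜)‖ ^ 2 - 1) 0 = 0 := by
    apply max_eq_right
    have h4 : ‖cc 𝕜 K * (C : 𝕜)‖ ≤ 1 := by
      rw [norm_mul, nC]
      have := mul_le_mul (cc_le (𝕜 := 𝕜) K) h.Cle hC.le zero_le_one
      linarith
    nlinarith [norm_nonneg (cc 𝕜 K * (C : 𝕜))]
  show 1 + 1 / 4 * max (‖cc 𝕜 K * (C : 𝕜)‖ ^ 2 - 1) 0 + _ ≤ _
  rw [h3]
  linarith

end Ang

end Q99.UD
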