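import Pool.Agent.Q99.UD.Norm

/-!
# Segments in the unit sphere and exposed points
-/

set_option autoImplicit false
set_option linter.unusedSectionVars false
open Filter Topology Finset

namespace Q99.UD

variable {𝕜 : Type} [RCLike 𝕜]

theorem par (x y : 𝕜) : ‖x + y‖ ^ 2 + ‖x - y‖ ^ 2 = 2 * (‖x‖ ^ 2 + ‖y‖ ^ 2) := parallelogram_law_with_norm 𝕜 x y

theorem vv_par (y z : 𝕜 × 𝕜 × 𝕜) : vv (y + z) + vv (y - z) = 2 * vv y + 2 * vv z := by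
  have h1 := par y.2.1 z.2.1
  have h2 := par y.2.2 z.2.2
  show (‖y.2.1 + z.2.1‖ ^ 2 + ‖y.2.2 + z.2.2‖ ^ 2) + (‖y.2.1 - z.2.1‖ ^ 2 + ‖y.2.2 - z.2.2‖ ^ 2) =
    2 * (‖y.2.1‖ ^ 2 + ‖y.2.2‖ ^ 2) + 2 * (‖z.2.1‖ ^ 2 + ‖z.2.2‖ ^ 2)
  linarith

theorem ff_par (k : ℕ) (y z : 𝕜 × 𝕜 × 𝕜) : ff k (y + z) + ff k (y - z) = 2 * ff k y + 2 * ff k z := by
  have h1 := par y.2.1 z.2.1
  have h2 := par y.2.2 z.2.2
  have h3 := par (y.1 - cc 𝕜 k * y.2.1) (z.1 - cc 𝕜 k * z.2.1)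
  have e1 : (y.1 + z.1) - cc 𝕜 k * (y.2.1 + z.2.1) = (y.1 - cc 𝕜 k * y.2.1) + (z.1 - cc 𝕜 k * z.2.1) := by ring
  have e2 : (y.1 - z.1) - cc 𝕜 k * (y.2.1 - z.2.1) = (y.1 - cc 𝕜 k * y.2.1) - (z.1 - cc 𝕜 k * z.2.1) := by ring
  show (‖y.2.2 + z.2.2‖ ^ 2 - 9 * ee k ^ 2 * ‖y.2.1 + z.2.1‖ ^ 2 +
      ee k ^ 2 * ‖(y.1 + z.1) - cc 𝕜 k * (y.2.1 + z.2.1)‖ ^ 2) +
    (‖y.2.2 - z.2.2‖ ^ 2 - 9 * ee k ^ 2 * ‖y.2.1 - z.2.1‖ ^ 2 +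
      ee k ^ 2 * ‖(y.1 - z.1) - cc 𝕜 k * (y.2.1 - z.2.1)‖ ^ 2) =
    2 * (‖y.2.2‖ ^ 2 - 9 * ee k ^ 2 * ‖y.2.1‖ ^ 2 + ee k ^ 2 * ‖y.1 - cc 𝕜 k * y.2.1‖ ^ 2) +
    2 * (‖z.2.2‖ ^ 2 - 9 * ee k ^ 2 * ‖z.2.1‖ ^ 2 + ee k ^ 2 * ‖z.1 - cc 𝕜 k * z.2.1‖ ^ 2)
  rw [e1, e2]
  linear_combination h2 - 9 * ee k ^ 2 * h1 + ee k ^ 2 * h3

theorem ee_tendsto : Tendsto ee atTop (𝓝 0) := by
  have h := tendsto_pow_atTop_nhds_zero_of_lt_one (show (0 : ℝ) ≤ 1 / 10 by norm_num) (by norm_num)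
  exact h.comp (tendsto_add_atTop_nat 1)

theorem ff_flat {k : ℕ} {y : 𝕜 × 𝕜 × 𝕜} (hb : y.2.2 = 0) (h : ‖y.1‖ ≤ ‖y.2.1‖) : ff k y ≤ 0 := by
  unfold ff
  rw [hb, norm_zero]
  have h1 : ‖y.1 - cc 𝕜 k * y.2.1‖ ≤ 2 * ‖y.2.1‖ := by
    refine (norm_sub_le _ _).trans ?_
    rw [norm_mul]
    have := mul_le_mul_of_nonneg_right (cc_le (𝕜 := 𝕜) k) (norm_nonneg y.2.1)
    linarith
  have h3 : ‖y.1 - cc 𝕜 k * y.2.1‖ ^ 2 ≤ (2 * ‖y.2.1‖) ^ 2 := pow_le_pow_left₀ (norm_nonneg _) h1 2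
  have h4 : 0 ≤ ee k ^ 2 := by positivity
  nlinarith [mul_le_mul_of_nonneg_left h3 h4, mul_nonneg h4 (sq_nonneg ‖y.2.1‖)]

theorem NN_flat {y : 𝕜 × 𝕜 × 𝕜} (hb : y.2.2 = 0) (h : ‖y.1‖ ≤ ‖y.2.1‖) : NN y = ‖y.2.1‖ ^ 2 := by
  unfold NN
  have h1 : ∑' k, ww k * max (ff k y) 0 = 0 := by
    have : (fun k => ww k * max (ff k y) 0) = fun _ => (0 : ℝ) := by
      funext k
      rw [max_eq_right (ff_flat hb h), mul_zero]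
    rw [this, tsum_zero]
  have h2 : vv y = ‖y.2.1‖ ^ 2 := by
    unfold vv
    rw [hb, norm_zero]
    ring
  have h3 : ‖y.1‖ ^ 2 ≤ ‖y.2.1‖ ^ 2 := pow_le_pow_left₀ (norm_nonneg _) h 2
  rw [h1, h2, max_eq_right (by linarith)]
  ring

theorem norm_flat {s a : 𝕜} (h : ‖s‖ ≤ ‖a‖) : ‖mk s a 0‖ = ‖a‖ := by
  rw [norm_eq]
  have h1 : NN (𝕜 := 𝕜) (mk s a 0) = ‖a‖ ^ 2 := NN_flat rfl h
  rw [h1, Real.sqrt_sq (norm_nonneg _)]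

/-- segments in the sphere are contained in the flat face -/
theorem seg {y z : X3 𝕜} (hy : ‖y‖ = 1) (hz : ‖z‖ = 1) (hyz : ‖y + z‖ = 2) (hne : y ≠ z) :
    y.2.2 = 0 ∧ z.2.2 = 0 ∧ y.2.1 = z.2.1 ∧ ‖y.2.1‖ = 1 ∧ ‖y.1‖ ≤ 1 ∧ ‖z.1‖ ≤ 1 := by
  have hNy : NN (𝕜 := 𝕜) y = 1 := by rw [← norm_sq_eq, hy, one_pow]
  have hNz : NN (𝕜 := 𝕜) z = 1 := by rw [← norm_sq_eq, hz, one_pow]
  have hNyz : NN (𝕜 := 𝕜) (y + z) = 4 := by rw [← norm_sq_eq, hyz]; norm_num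
  have hD : ∀ i, 2 * nn (𝕜 := 𝕜) y i ^ 2 + 2 * nn (𝕜 := 𝕜) z i ^ 2 - nn (𝕜 := 𝕜) (y + z) i ^ 2 = 0 := by
    have h1 := (((hasSum_wt (𝕜 := 𝕜) y).mul_left 2).add ((hasSum_wt (𝕜 := 𝕜) z).mul_left 2)).sub
      (hasSum_wt (𝕜 := 𝕜) (y + z))
    rw [hNy, hNz, hNyz] at h1
    have h2 : (fun i => 2 * (wt i * nn (𝕜 := 𝕜) y i ^ 2) + 2 * (wt i * nn (𝕜 := 𝕜) z i ^ 2) -
        wt i * nn (𝕜 := 𝕜) (y + z) i ^ 2) = fun i => wt i * (2 * nn (𝕜 := 𝕜) y i ^ 2 + 2 * nn (𝕜 := 𝕜) z i ^ 2 -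
        nn (𝕜 := 𝕜) (y + z) i ^ 2) := by
      funext i
      ring
    rw [h2] at h1
    have h3 : (2 : ℝ) * 1 + 2 * 1 - 4 = 0 := by norm_num
    rw [h3] at h1
    have h4 := (hasSum_zero_iff_of_nonneg (fun i => by
      apply mul_nonneg (wt_pos i).le
      have a1 := nn_add (𝕜 := 𝕜) y z i
      have a2 := nn_nonneg (𝕜 := 𝕜) (y + z) i
      have a3 : nn (𝕜 := 𝕜) (y + z) i ^ 2 ≤ (nn (𝕜 := 𝕜) y i + nn (𝕜 := 𝕜) z i) ^ 2 := pow_le_pow_left₀ a2 a1 2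
      show 0 ≤ 2 * nn (𝕜 := 𝕜) y i ^ 2 + 2 * nn (𝕜 := 𝕜) z i ^ 2 - nn (𝕜 := 𝕜) (y + z) i ^ 2
      nlinarith [sq_nonneg (nn (𝕜 := 𝕜) y i - nn (𝕜 := 𝕜) z i)])).1 h1
    intro i
    have h5 := congrFun h4 i
    rcases mul_eq_zero.1 h5 with h6 | h6
    · exact absurd h6 (wt_pos i).ne'
    · exact h6
  -- the first two coordinates
  have h0 := hD 0
  rw [nn_zero_sq, nn_zero_sq, nn_zero_sq] at h0
  have hpar := vv_par (𝕜 := 𝕜) y z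
  have hvd : vv (𝕜 := 𝕜) (y - z) = 0 := by
    have e : vv (𝕜 := 𝕜) (y + z) + vv (𝕜 := 𝕜) (y - z) = 2 * vv (𝕜 := 𝕜) y + 2 * vv (𝕜 := 𝕜) z := hpar
    linarith
  have hvd' : ‖y.2.1 - z.2.1‖ ^ 2 + ‖y.2.2 - z.2.2‖ ^ 2 = 0 := hvd
  have ha : y.2.1 = z.2.1 := by
    have : ‖y.2.1 - z.2.1‖ = 0 := by
      nlinarith [sq_nonneg ‖y.2.1 - z.2.1‖, sq_nonneg ‖y.2.2 - z.2.2‖, norm_nonneg (y.2.1 - z.2.1)]
    exact sub_eq_zero.1 (norm_eq_zero.1 this)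
  have hb : y.2.2 = z.2.2 := by
    have : ‖y.2.2 - z.2.2‖ = 0 := by
      nlinarith [sq_nonneg ‖y.2.1 - z.2.1‖, sq_nonneg ‖y.2.2 - z.2.2‖, norm_nonneg (y.2.2 - z.2.2)]
    exact sub_eq_zero.1 (norm_eq_zero.1 this)
  have hs : y.1 ≠ z.1 := fun h => hne (Prod.ext h (Prod.ext ha hb))
  have hspos : 0 < ‖y.1 - z.1‖ ^ 2 := by
    have := norm_pos_iff.2 (sub_ne_zero.2 hs)
    positivity
  -- the last coordinate vanishes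
  have hb0 : y.2.2 = 0 := by
    by_contra hb0
    have hbpos : 0 < ‖y.2.2‖ ^ 2 := by
      have := norm_pos_iff.2 hb0
      positivity
    obtain ⟨k, hk⟩ : ∃ k, 9 * ee k ^ 2 * ‖y.2.1‖ ^ 2 < ‖y.2.2‖ ^ 2 := by
      have h1 : Tendsto (fun k => 9 * ee k ^ 2 * ‖y.2.1‖ ^ 2) atTop (𝓝 (9 * 0 ^ 2 * ‖y.2.1‖ ^ 2)) :=
        ((ee_tendsto.pow 2).const_mul 9).mul_const _
      have h2 : (9 : ℝ) * 0 ^ 2 * ‖y.2.1‖ ^ 2 = 0 := by ring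
      rw [h2] at h1
      exact (h1.eventually (gt_mem_nhds hbpos)).exists
    have hffpos : 0 < ff (𝕜 := 𝕜) k (y + z) := by
      show 0 < ‖y.2.2 + z.2.2‖ ^ 2 - 9 * ee k ^ 2 * ‖y.2.1 + z.2.1‖ ^ 2 +
        ee k ^ 2 * ‖(y.1 + z.1) - cc 𝕜 k * (y.2.1 + z.2.1)‖ ^ 2
      rw [← ha, ← hb, ← two_mul, ← two_mul, norm_mul, norm_mul]
      have h2 : ‖(2 : 𝕜)‖ = 2 := RCLike.norm_two
      rw [h2]
      have h3 : 0 ≤ ee k ^ 2 * ‖(y.1 + z.1) - cc 𝕜 k * (2 * y.2.1)‖ ^ 2 := by positivity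
      nlinarith
    have h1 := hD (k + 2)
    rw [nn_succ_sq, nn_succ_sq, nn_succ_sq, max_eq_left hffpos.le] at h1
    have h2 : ff (𝕜 := 𝕜) k (y + z) + ff (𝕜 := 𝕜) k (y - z) = 2 * ff (𝕜 := 𝕜) k y + 2 * ff (𝕜 := 𝕜) k z :=
      ff_par (𝕜 := 𝕜) k y z
    have h3 : ff (𝕜 := 𝕜) k (y - z) = ee k ^ 2 * ‖y.1 - z.1‖ ^ 2 := by
      show ‖y.2.2 - z.2.2‖ ^ 2 - 9 * ee k ^ 2 * ‖y.2.1 - z.2.1‖ ^ 2 +
        ee k ^ 2 * ‖(y.1 - z.1) - cc 𝕜 k * (y.2.1 - z.2.1)‖ ^ 2 = _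
      rw [ha, hb, sub_self, sub_self, mul_zero, sub_zero, norm_zero]
      ring
    have h4 := le_max_left (ff (𝕜 := 𝕜) k y) 0
    have h5 := le_max_left (ff (𝕜 := 𝕜) k z) 0
    have h6 : 0 < ee k ^ 2 * ‖y.1 - z.1‖ ^ 2 := mul_pos (by have := ee_pos k; positivity) hspos
    linarith
  have hb0' : z.2.2 = 0 := by rw [← hb, hb0]
  -- the other coordinate
  have h1 := hD 1
  rw [nn_one_sq, nn_one_sq, nn_one_sq] at h1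
  have h2 : max (‖(y + z).1‖ ^ 2 - vv (𝕜 := 𝕜) (y + z)) 0 =
      2 * max (‖y.1‖ ^ 2 - vv (𝕜 := 𝕜) y) 0 + 2 * max (‖z.1‖ ^ 2 - vv (𝕜 := 𝕜) z) 0 := by linarith
  have h3 := le_max_right (‖y.1‖ ^ 2 - vv (𝕜 := 𝕜) y) 0
  have h4 := le_max_right (‖z.1‖ ^ 2 - vv (𝕜 := 𝕜) z) 0
  have h3' := le_max_left (‖y.1‖ ^ 2 - vv (𝕜 := 𝕜) y) 0
  have h4' := le_max_left (‖z.1‖ ^ 2 - vv (𝕜 := 𝕜) z) 0
  have h5 : max (‖(y + z).1‖ ^ 2 - vv (𝕜 := 𝕜) (y + z)) 0 = 0 := by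
    by_contra hc
    have h6 : max (‖(y + z).1‖ ^ 2 - vv (𝕜 := 𝕜) (y + z)) 0 = ‖(y + z).1‖ ^ 2 - vv (𝕜 := 𝕜) (y + z) := by
      rcases le_total (‖(y + z).1‖ ^ 2 - vv (𝕜 := 𝕜) (y + z)) 0 with h7 | h7
      · exact absurd (max_eq_right h7) hc
      · exact max_eq_left h7
    have h8 : ‖(y + z).1‖ ^ 2 + ‖y.1 - z.1‖ ^ 2 = 2 * (‖y.1‖ ^ 2 + ‖z.1‖ ^ 2) := par y.1 z.1
    linarith
  have h6 : max (‖y.1‖ ^ 2 - vv (𝕜 := 𝕜) y) 0 = 0 := by linarith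
  have h7 : max (‖z.1‖ ^ 2 - vv (𝕜 := 𝕜) z) 0 = 0 := by linarith
  have hvy : vv (𝕜 := 𝕜) y = ‖y.2.1‖ ^ 2 := by
    show ‖y.2.1‖ ^ 2 + ‖y.2.2‖ ^ 2 = _
    rw [hb0, norm_zero]
    ring
  have hvz : vv (𝕜 := 𝕜) z = ‖y.2.1‖ ^ 2 := by
    show ‖z.2.1‖ ^ 2 + ‖z.2.2‖ ^ 2 = _
    rw [hb0', norm_zero, ← ha]
    ring
  rw [h6, hvy] at h3'
  rw [h7, hvz] at h4'
  have hsy : ‖y.1‖ ≤ ‖y.2.1‖ := by
    apply le_of_sq_le_sq _ (norm_nonneg _)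
    linarith
  have hsz : ‖z.1‖ ≤ ‖y.2.1‖ := by
    apply le_of_sq_le_sq _ (norm_nonneg _)
    linarith
  have hone : ‖y.2.1‖ = 1 := by
    have h8 : NN (𝕜 := 𝕜) y = ‖y.2.1‖ ^ 2 := NN_flat hb0 hsy
    rw [hNy] at h8
    nlinarith [norm_nonneg y.2.1]
  rw [hone] at hsy hsz
  exact ⟨hb0, hb0', ha, hone, hsy, hsz⟩

/-- A strongly exposed point (in finite dimensions). -/
def Exposed (y : X3 𝕜) : Prop :=
  ∃ g : StrongDual 𝕜 (X3 𝕜), ‖g‖ ≤ 1 ∧ g y = 1 ∧ ∀ z, ‖z‖ ≤ 1 → ‖g z‖ = 1 → ∃ c : 𝕜, ‖c‖ = 1 ∧ z = c • y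

theorem exposed_of {y : X3 𝕜} (hy : ‖y‖ = 1) (g : StrongDual 𝕜 (X3 𝕜)) (hg : ‖g‖ ≤ 1) (hgy : g y = 1)
    (h : ∀ w : X3 𝕜, ‖w‖ = 1 → ‖y + w‖ = 2 → g w = 1 → w = y) : Exposed y := by
  refine ⟨g, hg, hgy, fun z hz hgz => ⟨g z, hgz, ?_⟩⟩
  have hc : (starRingEnd 𝕜) (g z) * g z = 1 := by
    rw [mul_comm, RCLike.mul_conj, hgz]
    norm_num
  have hcn : ‖(starRingEnd 𝕜) (g z)‖ = 1 := by rw [RCLike.norm_conj, hgz]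
  have hgw : g ((starRingEnd 𝕜) (g z) • z) = 1 := by rw [map_smul, smul_eq_mul, hc]
  have hw1 : ‖(starRingEnd 𝕜) (g z) • z‖ ≤ 1 := by rw [norm_smul, hcn, one_mul]; exact hz
  have hle : ∀ u : X3 𝕜, ‖g u‖ ≤ ‖u‖ := fun u => (g.le_opNorm u).trans (by
    calc ‖g‖ * ‖u‖ ≤ 1 * ‖u‖ := mul_le_mul_of_nonneg_right hg (norm_nonneg _)
      _ = ‖u‖ := one_mul _)
  have hw2 : ‖(starRingEnd 𝕜) (g z) • z‖ = 1 := by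
    apply le_antisymm hw1
    have := hle ((starRingEnd 𝕜) (g z) • z)
    rw [hgw, norm_one] at this
    exact this
  have hw3 : ‖y + (starRingEnd 𝕜) (g z) • z‖ = 2 := by
    apply le_antisymm
    · refine (norm_add_le _ _).trans ?_
      rw [hy, hw2]
      norm_num
    · have h1 := hle (y + (starRingEnd 𝕜) (g z) • z)
      rw [map_add, hgy, hgw] at h1
      have h2 : ‖(1 : 𝕜) + 1‖ = 2 := by
        rw [one_add_one_eq_two]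
        exact RCLike.norm_two
      rw [h2] at h1
      exact h1
  have hwy := h _ hw2 hw3 hgw
  calc z = (1 : 𝕜) • z := (one_smul _ _).symm
    _ = (g z * (starRingEnd 𝕜) (g z)) • z := by rw [mul_comm, hc]
    _ = g z • ((starRingEnd 𝕜) (g z) • z) := mul_smul _ _ _
    _ = g z • y := by rw [hwy]

/-- all points of the sphere outside the relative interior of the flat face are exposed -/
theorem exposed {y : X3 𝕜} (hy : ‖y‖ = 1) (h : ¬ (y.2.2 = 0 ∧ ‖y.1‖ < ‖y.2.1‖)) : Exposed y := by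
  by_cases h1 : y.2.2 = 0 ∧ ‖y.1‖ = ‖y.2.1‖
  · obtain ⟨hb, hs⟩ := h1
    have ha : ‖y.2.1‖ = 1 := by
      have h8 : NN (𝕜 := 𝕜) y = ‖y.2.1‖ ^ 2 := NN_flat hb hs.le
      rw [← norm_sq_eq, hy] at h8
      nlinarith [norm_nonneg y.2.1]
    rw [ha] at hs
    have hc : ∀ c : 𝕜, ‖c‖ = 1 → (starRingEnd 𝕜) c * c = 1 := fun c hc => by
      rw [mul_comm, RCLike.mul_conj, hc]
      norm_num
    have hbd : ∀ z : X3 𝕜, ‖(3 / 4 : 𝕜) * ((starRingEnd 𝕜) y.2.1 * z.2.1) + (1 / 4 : 𝕜) * ((starRingEnd 𝕜) y.1 * z.1)‖ ≤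
        1 * ‖z‖ := by
      intro z
      have n1 : ‖(3 / 4 : 𝕜)‖ = 3 / 4 := by
        rw [norm_div]
        have a1 : ‖(3 : 𝕜)‖ = 3 := RCLike.norm_ofNat 3
        have a2 : ‖(4 : 𝕜)‖ = 4 := RCLike.norm_ofNat 4
        rw [a1, a2]
      have n2 : ‖(1 / 4 : 𝕜)‖ = 1 / 4 := by
        rw [norm_div, norm_one]
        have a2 : ‖(4 : 𝕜)‖ = 4 := RCLike.norm_ofNat 4
        rw [a2]
      refine (norm_add_le _ _).trans ?_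
      rw [norm_mul, norm_mul, norm_mul, norm_mul, n1, n2, RCLike.norm_conj, RCLike.norm_conj, ha, hs, one_mul,
        one_mul, one_mul]
      have h3 := s_le_NN (𝕜 := 𝕜) z
      rw [← norm_sq_eq] at h3
      have h4 : ‖z.2.1‖ ^ 2 ≤ vv (𝕜 := 𝕜) z := by
        show ‖z.2.1‖ ^ 2 ≤ ‖z.2.1‖ ^ 2 + ‖z.2.2‖ ^ 2
        have := sq_nonneg ‖z.2.2‖
        linarith
      apply le_of_sq_le_sq _ (norm_nonneg _)
      nlinarith [sq_nonneg (‖z.2.1‖ - ‖z.1‖)]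
    obtain ⟨g, hgdef, hg1⟩ : ∃ g : StrongDual 𝕜 (X3 𝕜), (∀ z : X3 𝕜, g z = (3 / 4 : 𝕜) * ((starRingEnd 𝕜) y.2.1 * z.2.1) +
        (1 / 4 : 𝕜) * ((starRingEnd 𝕜) y.1 * z.1)) ∧ ‖g‖ ≤ 1 := by
      refine ⟨LinearMap.mkContinuous
        { toFun := fun z : X3 𝕜 => (3 / 4 : 𝕜) * ((starRingEnd 𝕜) y.2.1 * z.2.1) + (1 / 4 : 𝕜) * ((starRingEnd 𝕜) y.1 * z.1)
          map_add' := fun u v => by
            show (3 / 4 : 𝕜) * ((starRingEnd 𝕜) y.2.1 * (u.2.1 + v.2.1)) + (1 / 4 : 𝕜) * ((starRingEnd 𝕜) y.1 * (u.1 + v.1)) = _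
            ring
          map_smul' := fun c u => by
            show (3 / 4 : 𝕜) * ((starRingEnd 𝕜) y.2.1 * (c * u.2.1)) + (1 / 4 : 𝕜) * ((starRingEnd 𝕜) y.1 * (c * u.1)) =
              c * ((3 / 4 : 𝕜) * ((starRingEnd 𝕜) y.2.1 * u.2.1) + (1 / 4 : 𝕜) * ((starRingEnd 𝕜) y.1 * u.1))
            ring } 1 hbd, fun z => rfl, LinearMap.mkContinuous_norm_le _ zero_le_one _⟩
    apply exposed_of hy g hg1
    · rw [hgdef, hc _ ha, hc _ hs]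
      norm_num
    · intro w hw hyw hgw
      by_contra hne
      obtain ⟨_, h5, h6, _, _, _⟩ := seg hy hw hyw (Ne.symm hne)
      rw [hgdef, ← h6, hc _ ha] at hgw
      have h7 : (starRingEnd 𝕜) y.1 * w.1 = 1 := by
        have h8 : (1 / 4 : 𝕜) * ((starRingEnd 𝕜) y.1 * w.1) = 1 / 4 * 1 := by
          linear_combination hgw
        have h9 : (1 / 4 : 𝕜) ≠ 0 := by norm_num
        exact mul_left_cancel₀ h9 h8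
      have h10 : w.1 = y.1 := by
        calc w.1 = (y.1 * (starRingEnd 𝕜) y.1) * w.1 := by rw [mul_comm y.1, hc _ hs, one_mul]
          _ = y.1 * ((starRingEnd 𝕜) y.1 * w.1) := by ring
          _ = y.1 := by rw [h7, mul_one]
      apply hne
      refine Prod.ext h10 (Prod.ext h6.symm ?_)
      show w.2.2 = y.2.2
      rw [h5, hb]
  · obtain ⟨g, hg1, hg2⟩ := exists_dual_vector'' 𝕜 y
    rw [hy, RCLike.ofReal_one] at hg2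
    apply exposed_of hy g hg1 hg2
    intro w hw hyw _
    by_contra hne
    obtain ⟨h5, _, _, h6, h7, _⟩ := seg hy hw hyw (Ne.symm hne)
    rcases lt_or_eq_of_le (h7.trans h6.ge) with h8 | h8
    · exact h ⟨h5, h8⟩
    · exact h1 ⟨h5, h8⟩

end Q99.UD
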