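import Pool.Agent.Q99.UD.Main

/-!
# The space is a universal domain, but not uniformly convex
-/

set_option autoImplicit false
set_option linter.unusedSectionVars false
open Filter Topology

namespace Q99.UD

universe v

variable {𝕜 : Type} [RCLike 𝕜]

section lim

variable (𝓤 : Ultrafilter ℕ)

theorem exists_lim {a : ℕ → ℝ} {b : ℝ} (h0 : ∀ n, 0 ≤ a n) (hb : ∀ n, a n ≤ b) :
    ∃ t, 0 ≤ t ∧ t ≤ b ∧ Tendsto a 𝓤 (𝓝 t) := by
  have h1 : ((𝓤.map a : Ultrafilter ℝ) : Filter ℝ) ≤ 𝓟 (Set.Icc 0 b) := by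
    rw [le_principal_iff]
    show a ⁻¹' Set.Icc 0 b ∈ (𝓤 : Filter ℕ)
    exact Filter.univ_mem' fun n => ⟨h0 n, hb n⟩
  obtain ⟨t, ht, h2⟩ := isCompact_Icc.ultrafilter_le_nhds (𝓤.map a) h1
  exact ⟨t, ht.1, ht.2, h2⟩

/-- the limit seminorm -/
theorem exists_seminorm {X : Type} [NormedAddCommGroup X] [NormedSpace 𝕜 X] {Z : Type v} [NormedAddCommGroup Z]
    [NormedSpace 𝕜 Z] (T : ℕ → X →L[𝕜] Z) (hT : ∀ n, ‖T n‖ = 1) :
    ∃ p : Seminorm 𝕜 X, (∀ y, p y ≤ ‖y‖) ∧ ∀ y, Tendsto (fun n => ‖T n y‖) 𝓤 (𝓝 (p y)) := by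
  have h1 : ∀ y : X, ∃ t, 0 ≤ t ∧ t ≤ ‖y‖ ∧ Tendsto (fun n => ‖T n y‖) 𝓤 (𝓝 t) := fun y =>
    exists_lim 𝓤 (fun n => norm_nonneg _) (fun n => by
      have := (T n).le_opNorm y
      rwa [hT, one_mul] at this)
  choose q hq0 hq1 hq using h1
  refine ⟨Seminorm.of q (fun x y => ?_) (fun c x => ?_), hq1, hq⟩
  · refine le_of_tendsto_of_tendsto (hq (x + y)) ((hq x).add (hq y)) (Filter.Eventually.of_forall fun n => ?_)
    show ‖T n (x + y)‖ ≤ ‖T n x‖ + ‖T n y‖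
    rw [map_add]
    exact norm_add_le _ _
  · refine tendsto_nhds_unique (hq (c • x)) ?_
    have h2 : (fun n => ‖T n (c • x)‖) = fun n => ‖c‖ * ‖T n x‖ := by
      funext n
      rw [map_smul, norm_smul]
    rw [h2]
    exact (hq x).const_mul _

end lim

theorem univ_domain : UniversalDomain.{v} 𝕜 (X3 𝕜) := by
  intro Z _ _ _ ε hε
  by_contra hcon
  push Not at hcon
  have hη : ∀ n : ℕ, 0 < ε / (n + 2) ∧ ε / (n + 2) < ε := fun n => by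
    have h2 : (0 : ℝ) < n + 2 := by positivity
    refine ⟨by positivity, ?_⟩
    rw [div_lt_iff₀ h2]
    have : (0 : ℝ) ≤ n := Nat.cast_nonneg n
    nlinarith
  have h1 : ∀ n : ℕ, ∃ (T : X3 𝕜 →L[𝕜] Z) (x : X3 𝕜), ‖T‖ = 1 ∧ ‖x‖ = 1 ∧ 1 - ε / (n + 2) < ‖T x‖ ∧
      ∀ (S : X3 𝕜 →L[𝕜] Z) (x₀ : X3 𝕜), ASE S → ‖x₀‖ = 1 → ‖S‖ = 1 → ‖S x₀‖ = 1 → ‖S - T‖ < ε → ε ≤ ‖x - x₀‖ := by
    intro n
    obtain ⟨T, x, h2, h3, h4, h5⟩ := hcon (ε / (n + 2)) (hη n).1 (hη n).2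
    exact ⟨T, x, h2, h3, h4, h5⟩
  choose T x hT hx hTx hbad using h1
  obtain ⟨𝓤, h𝓤⟩ : ∃ 𝓤 : Ultrafilter ℕ, (𝓤 : Filter ℕ) ≤ atTop := ⟨Filter.hyperfilter ℕ, Nat.hyperfilter_le_atTop⟩
  have sphere_lim : ∀ u : ℕ → X3 𝕜, (∀ n, ‖u n‖ = 1) → ∃ w : X3 𝕜, ‖w‖ = 1 ∧ Tendsto u 𝓤 (𝓝 w) := by
    intro u hu
    have h2 : ((𝓤.map u : Ultrafilter (X3 𝕜)) : Filter (X3 𝕜)) ≤ 𝓟 (Metric.sphere 0 1) := by
      rw [le_principal_iff]
      show u ⁻¹' Metric.sphere 0 1 ∈ (𝓤 : Filter ℕ)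
      exact Filter.univ_mem' fun n => mem_sphere_zero_iff_norm.2 (hu n)
    obtain ⟨w, hw, h3⟩ := (isCompact_sphere (0 : X3 𝕜) 1).ultrafilter_le_nhds (𝓤.map u) h2
    exact ⟨w, mem_sphere_zero_iff_norm.1 hw, h3⟩
  have hTle : ∀ n w, ‖T n w‖ ≤ ‖w‖ := fun n w => by
    have := (T n).le_opNorm w
    rwa [hT, one_mul] at this
  obtain ⟨x', hx', hxlim⟩ := sphere_lim x hx
  obtain ⟨p, hp, hplim⟩ := exists_seminorm 𝓤 T hT
  -- continuity along the ultrafilter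
  have hcont : ∀ (u : ℕ → X3 𝕜) (w : X3 𝕜), Tendsto u 𝓤 (𝓝 w) → Tendsto (fun n => ‖T n (u n)‖) 𝓤 (𝓝 (p w)) := by
    intro u w hu
    have h2 : Tendsto (fun n => ‖T n (u n)‖ - ‖T n w‖) 𝓤 (𝓝 0) := by
      have h3 : Tendsto (fun n => ‖u n - w‖) 𝓤 (𝓝 0) := by
        rw [tendsto_iff_norm_sub_tendsto_zero] at hu
        exact hu
      refine squeeze_zero_norm (fun n => ?_) h3
      rw [Real.norm_eq_abs]
      refine (abs_norm_sub_norm_le _ _).trans ?_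
      rw [← map_sub]
      exact hTle _ _
    have h4 := h2.add (hplim w)
    rw [zero_add] at h4
    refine h4.congr fun n => ?_
    ring
  have hpx : p x' = 1 := by
    refine tendsto_nhds_unique (hcont x x' hxlim) ?_
    have h2 : Tendsto (fun n : ℕ => 1 - ε / ((n : ℝ) + 2)) atTop (𝓝 (1 - 0)) := by
      apply Tendsto.const_sub
      apply Tendsto.div_atTop tendsto_const_nhds
      exact tendsto_atTop_add_const_right _ _ tendsto_natCast_atTop_atTop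
    rw [sub_zero] at h2
    refine tendsto_of_tendsto_of_tendsto_of_le_of_le (h2.mono_left h𝓤) tendsto_const_nhds (fun n => (hTx n).le)
      (fun n => (hTle n (x n)).trans (hx n).le)
  obtain ⟨δ, hδ⟩ : ∃ δ, δ = min (1 / 2) (ε / 4) := ⟨_, rfl⟩
  have hδ0 : 0 < δ := by rw [hδ]; exact lt_min (by norm_num) (by positivity)
  have hδ1 : δ ≤ 1 / 2 := by rw [hδ]; exact min_le_left _ _
  have hδε : δ ≤ ε / 4 := by rw [hδ]; exact min_le_right _ _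
  obtain ⟨W, hW1, hW2⟩ := localize p hp hx' hpx hδ0
  obtain ⟨V, hV⟩ : ∃ V : X3 𝕜 →L[𝕜] X3 𝕜, ∀ w, V w = W w := ⟨LinearMap.toContinuousLinearMap W, fun _ => rfl⟩
  have hmaxex := fun n => exists_max ((T n).comp V)
  choose y hy hymax hyop using hmaxex
  obtain ⟨y', hy', hylim⟩ := sphere_lim y hy
  have hVlim : Tendsto (fun n => V (y n)) 𝓤 (𝓝 (V y')) := (V.continuous.tendsto y').comp hylim
  have hmax' : ∀ z : X3 𝕜, ‖z‖ = 1 → p (W z) ≤ p (W y') := by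
    intro z hz
    rw [← hV, ← hV]
    exact le_of_tendsto_of_tendsto (hplim (V z)) (hcont _ _ hVlim) (Filter.Eventually.of_forall fun n => hymax n z hz)
  obtain ⟨_, l, hl, hyl⟩ := hW2 y' hy' hmax'
  have hl0 : l ≠ 0 := by
    intro h0
    rw [h0, norm_zero] at hl
    exact zero_ne_one hl
  -- choose n
  have hev : ∀ᶠ n in (𝓤 : Filter ℕ), ‖y n - l • x n‖ < 2 * δ := by
    have h2 : Tendsto (fun n => ‖y n - l • x n‖) 𝓤 (𝓝 ‖y' - l • x'‖) := (hylim.sub (hxlim.const_smul l)).norm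
    exact h2.eventually (gt_mem_nhds (by linarith))
  obtain ⟨n, hn⟩ := hev.exists
  obtain ⟨A, hA⟩ : ∃ A, A = ‖(T n).comp V‖ := ⟨_, rfl⟩
  have hVsub : ∀ w, ‖V w - w‖ ≤ δ * ‖w‖ := fun w => by rw [hV]; exact hW1 w
  have hTV : ‖(T n).comp V - T n‖ ≤ δ := by
    apply ContinuousLinearMap.opNorm_le_bound _ hδ0.le
    intro w
    have e1 : ((T n).comp V - T n) w = T n (V w - w) := by rw [map_sub]; rfl
    rw [e1]
    exact (hTle _ _).trans (hVsub w)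
  have hA1 : |A - 1| ≤ δ := by
    rw [hA]
    have h2 := abs_norm_sub_norm_le ((T n).comp V) (T n)
    rw [hT] at h2
    exact h2.trans hTV
  have hAge : 1 / 2 ≤ A := by
    have := (abs_le.1 hA1).1
    linarith
  have hApos : 0 < A := by linarith
  have nA : ‖((A⁻¹ : ℝ) : 𝕜)‖ = A⁻¹ := by rw [RCLike.norm_ofReal, abs_of_pos (by positivity)]
  obtain ⟨S', hS'⟩ : ∃ S' : X3 𝕜 →L[𝕜] Z, S' = ((A⁻¹ : ℝ) : 𝕜) • (T n).comp V := ⟨_, rfl⟩
  have hS'1 : ‖S'‖ = 1 := by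
    rw [hS', norm_smul, nA, ← hA, inv_mul_cancel₀ hApos.ne']
  obtain ⟨z, hz⟩ : ∃ z, z = l⁻¹ • y n := ⟨_, rfl⟩
  have hz1 : ‖z‖ = 1 := by rw [hz, norm_smul, norm_inv, hl, inv_one, one_mul, hy]
  have hS'z : ‖S' z‖ = 1 := by
    rw [hS', hz, map_smul, norm_smul, norm_inv, hl, inv_one, one_mul]
    show ‖((A⁻¹ : ℝ) : 𝕜) • ((T n).comp V) (y n)‖ = 1
    rw [norm_smul, nA, hyop, ← hA, inv_mul_cancel₀ hApos.ne']
  obtain ⟨S, w, hS, hw, hS1, hSw, hSS', hzw⟩ := exact_case hS'1 hz1 hS'z hδ0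
  have h3 : ‖S' - (T n).comp V‖ ≤ δ := by
    have e1 : S' - (T n).comp V = (((1 - A : ℝ)) : 𝕜) • S' := by
      have e2 : (A : 𝕜) • S' = (T n).comp V := by
        rw [hS', smul_smul, ← RCLike.ofReal_mul, mul_inv_cancel₀ hApos.ne', RCLike.ofReal_one, one_smul]
      rw [RCLike.ofReal_sub, RCLike.ofReal_one, sub_smul, one_smul, e2]
    rw [e1, norm_smul, hS'1, mul_one, RCLike.norm_ofReal, abs_sub_comm]
    exact hA1
  have h4 : ‖S - T n‖ < ε := by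
    have e1 : S - T n = (S - S') + ((S' - (T n).comp V) + ((T n).comp V - T n)) := by abel
    rw [e1]
    refine lt_of_le_of_lt ((norm_add_le _ _).trans (add_le_add hSS' ((norm_add_le _ _).trans (add_le_add h3 hTV)))) ?_
    linarith
  have h5 := hbad n S w hS hw hS1 hSw h4
  have h6 : ‖x n - w‖ < ε := by
    have e1 : x n - w = (x n - z) + (z - w) := by abel
    have e2 : x n - z = -(l⁻¹ • (y n - l • x n)) := by
      rw [hz, smul_sub, smul_smul, inv_mul_cancel₀ hl0, one_smul]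
      abel
    rw [e1]
    refine lt_of_le_of_lt (norm_add_le _ _) ?_
    rw [e2, norm_neg, norm_smul, norm_inv, hl, inv_one, one_mul]
    linarith
  linarith

theorem not_uc : ¬ UniformlyConvex (X3 𝕜) := by
  intro h
  have n1 : ‖mk (0 : 𝕜) 1 0‖ = 1 := by rw [norm_flat (by rw [norm_zero, norm_one]; exact zero_le_one), norm_one]
  have n2 : ‖mk (1 : 𝕜) 1 0‖ = 1 := by rw [norm_flat (by rw [norm_one]), norm_one]
  have e1 : mk (0 : 𝕜) 1 0 + mk (1 : 𝕜) 1 0 = mk (1 : 𝕜) 2 0 := by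
    refine Prod.ext ?_ (Prod.ext ?_ ?_)
    · show (0 : 𝕜) + 1 = 1
      rw [zero_add]
    · show (1 : 𝕜) + 1 = 2
      rw [one_add_one_eq_two]
    · show (0 : 𝕜) + 0 = 0
      rw [add_zero]
  have n3 : ‖mk (0 : 𝕜) 1 0 + mk (1 : 𝕜) 1 0‖ = 2 := by
    rw [e1, norm_flat (by rw [norm_one]; have : ‖(2 : 𝕜)‖ = 2 := RCLike.norm_two; rw [this]; norm_num)]
    exact RCLike.norm_two
  have hne : mk (0 : 𝕜) 1 0 - mk (1 : 𝕜) 1 0 ≠ 0 := by
    intro h0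
    have h1 : mk (0 : 𝕜) 1 0 = mk (1 : 𝕜) 1 0 := sub_eq_zero.1 h0
    have h2 : (0 : 𝕜) = 1 := congrArg (fun u : X3 𝕜 => u.1) h1
    exact zero_ne_one h2
  obtain ⟨δ, hδ0, hδ1, h1⟩ := h ‖mk (0 : 𝕜) 1 0 - mk (1 : 𝕜) 1 0‖ (norm_pos_iff.2 hne)
  exact lt_irrefl _ (h1 _ _ n1 n2 (by rw [n3]; linarith))

instance : CompleteSpace (X3 𝕜) := FiniteDimensional.complete 𝕜 (X3 𝕜)

end Q99.UD
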